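import Pool.Agent.Lib.MP_0d9be2_nt.Defs3

/-!
# MP_0d9be2_nt: bookkeeping statements for the shares in towers
-/

set_option autoImplicit false

open scoped NumberField Pointwise
open IsDedekindDomain NumberField

namespace Pool.Agent.MP_0d9be2

/-- The share of the places that do not split, in a tower `K ≤ F ≤ F'`; `K₁'` is the compositum of
`F` and `K₁`. -/
def ShareTower_S : Prop :=
  ∀ (K K₁ F K₁' F' : Type) [Field K] [NumberField K] [Field K₁] [NumberField K₁] [Field F]
    [NumberField F] [Field K₁'] [NumberField K₁'] [Field F'] [NumberField F']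
    [Algebra K K₁] [Algebra K F] [Algebra K K₁'] [Algebra K₁ K₁'] [Algebra F K₁']
    [Algebra K F'] [Algebra F F'] [IsScalarTower K F F'] [IsGalois K K₁],
    IsCompositum K K₁ F K₁' → ∀ m : ℕ,
    ((∀ u : HeightOneSpectrum (𝓞 F), m * badDeg F K₁' F' u ≤ Module.finrank F F') →
      ∀ v : HeightOneSpectrum (𝓞 K), m * badDeg K K₁ F' v ≤ Module.finrank K F') ∧
    ((∀ u : InfinitePlace F, m * badInf F K₁' F' u ≤ Module.finrank F F') →
      ∀ v : InfinitePlace K, m * badInf K K₁ F' v ≤ Module.finrank K F')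

/-- Invariance under isomorphisms. -/
def ShareIso_S : Prop :=
  ∀ (K K₁ F F' : Type) [Field K] [NumberField K] [Field K₁] [NumberField K₁] [Field F]
    [NumberField F] [Field F'] [NumberField F'] [Algebra K K₁] [Algebra K F] [Algebra K F']
    (_ : F ≃ₐ[K] F'),
    (∀ v : HeightOneSpectrum (𝓞 K), badDeg K K₁ F' v = badDeg K K₁ F v) ∧
    (∀ v : InfinitePlace K, badInf K K₁ F' v = badInf K K₁ F v)

/-- Monotonicity in `K₁`. -/
def ShareMono_S : Prop :=
  ∀ (K K₁ K₂ F : Type) [Field K] [NumberField K] [Field K₁] [NumberField K₁] [Field K₂]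
    [NumberField K₂] [Field F] [NumberField F] [Algebra K K₁] [Algebra K K₂] [Algebra K₁ K₂]
    [IsScalarTower K K₁ K₂] [Algebra K F] [IsGalois K K₁] [IsGalois K K₂],
    (∀ v : HeightOneSpectrum (𝓞 K), badDeg K K₁ F v ≤ badDeg K K₂ F v) ∧
    (∀ v : InfinitePlace K, badInf K K₁ F v ≤ badInf K K₂ F v)

end Pool.Agent.MP_0d9be2

namespace Pool.Agent.MP_0d9be2

/-- Every nonzero prime ideal of the ring of integers of the algebraic closure comes from an
absolute value. -/
def Bridge_S : Prop :=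
  ∀ (K : Type) [Field K] [NumberField K] (P : Ideal (𝓞 (AlgebraicClosure K))), P.IsPrime →
    P ≠ ⊥ → ∃ v : AbsoluteValue (AlgebraicClosure K) ℝ, v.IsNontrivial ∧
      (∀ x : 𝓞 (AlgebraicClosure K), x ∈ P → v x < 1) ∧
      (∀ x : 𝓞 (AlgebraicClosure K), x ∉ P → v x = 1) ∧
      ∀ x : AlgebraicClosure K, v x < 1 → ∃ a b : 𝓞 (AlgebraicClosure K), a ∈ P ∧ b ∉ P ∧
        x * b = a

end Pool.Agent.MP_0d9be2
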