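import Pool.Agent.Lib.MP_0d9be2_nt.H63.Embed
import Pool.Agent.Lib.MP_0d9be2_nt.H63.Iface

/-!
# Compactness: decomposition groups in the tower at finite level
-/

set_option autoImplicit false

open scoped NumberField Pointwise
open IsDedekindDomain NumberField

namespace Pool.Agent.MP_0d9be2.H63

open Pool.Agent.MP_0d9be2.H36

section

variable {K : Type} [Field K] [NumberField K]

/-- The stabiliser of a prime preserves the absolute value of the prime. -/
theorem v_of_stab (P : Ideal (𝓞 (AlgebraicClosure K)))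
    (v : AbsoluteValue (AlgebraicClosure K) ℝ) (hv : v.IsNontrivial)
    (h1 : ∀ x : 𝓞 (AlgebraicClosure K), x ∈ P → v x < 1)
    (h2 : ∀ x : 𝓞 (AlgebraicClosure K), x ∉ P → v x = 1)
    (h3 : ∀ x : AlgebraicClosure K, v x < 1 → ∃ a b : 𝓞 (AlgebraicClosure K), a ∈ P ∧ b ∉ P ∧
      x * b = a)
    (σ : Gal(AlgebraicClosure K/K)) (hσ : ∀ x : 𝓞 (AlgebraicClosure K), σ • x ∈ P ↔ x ∈ P)
    (x : AlgebraicClosure K) : v (σ x) = v x := by
  set w : AbsoluteValue (AlgebraicClosure K) ℝ :=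
    v.comp (f := (σ : AlgebraicClosure K ≃ₐ[K] AlgebraicClosure K).toRingEquiv.toRingHom)
      σ.injective with hw
  have hwx : ∀ x, w x = v (σ x) := fun x => rfl
  have hcoe : ∀ y : 𝓞 (AlgebraicClosure K), ((σ • y : 𝓞 (AlgebraicClosure K)) :
      AlgebraicClosure K) = σ y := fun y => rfl
  have heq : v.IsEquiv w := by
    refine AbsoluteValue.isEquiv_of_lt_one_imp hv fun y hy => ?_
    obtain ⟨a, b, ha, hb, hab⟩ := h3 y hy
    have h4 : v (σ a) < 1 := by
      rw [← hcoe]
      exact h1 _ ((hσ a).2 ha)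
    have h5 : v (σ b) = 1 := by
      rw [← hcoe]
      exact h2 _ (fun h => hb ((hσ b).1 h))
    have h6 : v (σ y) * v (σ b) = v (σ a) := by
      rw [← map_mul, ← map_mul, hab]
    rw [h5, mul_one] at h6
    rw [hwx, h6]
    exact h4
  refine eq_of_isEquiv (k := K) σ v (fun y z => ?_) x
  have := heq.lt_iff_lt (x := y) (y := z)
  rw [hwx, hwx] at this
  exact this

theorem isInvariant_closure :
    Algebra.IsInvariant (𝓞 K) (𝓞 (AlgebraicClosure K)) Gal(AlgebraicClosure K/K) := by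
  constructor
  intro b hb
  have h1 : (b : AlgebraicClosure K) ∈ (⊥ : IntermediateField K (AlgebraicClosure K)) := by
    rw [InfiniteGalois.mem_bot_iff_fixed]
    intro σ
    exact congrArg (fun y : 𝓞 (AlgebraicClosure K) => (y : AlgebraicClosure K)) (hb σ)
  rw [IntermediateField.mem_bot] at h1
  obtain ⟨a, ha⟩ := h1
  have h2 : IsIntegral ℤ a := by
    have h3 : IsIntegral ℤ (algebraMap K (AlgebraicClosure K) a) := by
      rw [ha]
      exact b.2
    exact (isIntegral_algHom_iff (Algebra.ofId K (AlgebraicClosure K) |>.restrictScalars ℤ)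
      (algebraMap K (AlgebraicClosure K)).injective).1 h3
  refine ⟨⟨a, h2⟩, ?_⟩
  apply NumberField.RingOfIntegers.ext
  exact ha

/-- Compactness. -/
theorem d3 (hBr : Bridge_S) {p : ℕ}
    (F : ℕ → IntermediateField K (AlgebraicClosure K)) (hmono : Monotone F)
    [hfd : ∀ n, FiniteDimensional K (F n)]
    (Ki : IntermediateField K (AlgebraicClosure K)) (hKi : Ki = ⨆ n, F n)
    (hall : ∀ v : AbsoluteValue (AlgebraicClosure K) ℝ, v.IsNontrivial →
      ∀ σ : Gal(AlgebraicClosure K/Ki), (∀ x, v (σ x) = v x) → ∀ x, ∃ j : ℕ, (σ ^ p ^ j) x = x)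
    (M : IntermediateField K (AlgebraicClosure K)) [FiniteDimensional K M]
    (v : HeightOneSpectrum (𝓞 K)) :
    ∃ n₀ : ℕ, ∀ n, n₀ ≤ n → ∀ σ ∈ (F n).fixingSubgroup, ∀ P : Ideal (𝓞 (AlgebraicClosure K)),
      P.IsPrime → P.LiesOver v.asIdeal → (∀ x : 𝓞 (AlgebraicClosure K), σ • x ∈ P ↔ x ∈ P) →
      ∃ j : ℕ, ∀ x ∈ M, (σ ^ p ^ j) x = x := by
  by_contra hcon
  push Not at hcon
  -- a primitive element
  obtain ⟨θ', hθ'⟩ := Field.exists_primitive_element K M
  let θ : AlgebraicClosure K := M.val θ'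
  have hgen : ∀ τ : Gal(AlgebraicClosure K/K), τ θ = θ → ∀ x ∈ M, τ x = x := by
    intro τ hτ x hx
    have h1 : (⟨x, hx⟩ : M) ∈ IntermediateField.adjoin K {θ'} := by
      rw [hθ']
      trivial
    have h2 : IntermediateField.adjoin K {θ'} ≤
        (IntermediateField.fixedField (Subgroup.zpowers τ)).comap M.val := by
      rw [IntermediateField.adjoin_le_iff]
      rintro _ rfl
      change θ ∈ IntermediateField.fixedField (Subgroup.zpowers τ)
      rw [IntermediateField.mem_fixedField_iff]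
      intro ρ hρ
      rw [Subgroup.mem_zpowers_iff] at hρ
      obtain ⟨m, rfl⟩ := hρ
      have h4 : τ ∈ MulAction.stabilizer Gal(AlgebraicClosure K/K) θ := hτ
      exact Subgroup.zpow_mem _ h4 m
    have h3 : x ∈ IntermediateField.fixedField (Subgroup.zpowers τ) := h2 h1
    rw [IntermediateField.mem_fixedField_iff] at h3
    exact h3 τ (Subgroup.mem_zpowers τ)
  obtain ⟨_, _, _, _, P₀, hP₀, hP₀v, _, _⟩ := hcon 0
  -- topology
  let G := Gal(AlgebraicClosure K/K)
  let _ : TopologicalSpace (𝓞 (AlgebraicClosure K)) := ⊥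
  have hdisc : DiscreteTopology (𝓞 (AlgebraicClosure K)) := ⟨rfl⟩
  have hcs : ContinuousSMul G (𝓞 (AlgebraicClosure K)) := by
    rw [continuousSMul_iff_stabilizer_isOpen]
    intro x
    have h1 := stabilizer_isOpen_of_isIntegral (K := K) (L := AlgebraicClosure K)
      (x : AlgebraicClosure K)
    convert h1 using 1
    ext g
    simp only [SetLike.mem_coe, MulAction.mem_stabilizer_iff]
    constructor
    · intro h
      exact congrArg (fun y : 𝓞 (AlgebraicClosure K) => (y : AlgebraicClosure K)) h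
    · intro h
      exact NumberField.RingOfIntegers.ext h
  have hinv := isInvariant_closure (K := K)
  have hcomm : SMulCommClass G (𝓞 K) (𝓞 (AlgebraicClosure K)) := by
    constructor
    intro g a b
    apply NumberField.RingOfIntegers.ext
    rw [Algebra.smul_def, Algebra.smul_def]
    change g (algebraMap K (AlgebraicClosure K) (a : K) * (b : AlgebraicClosure K)) =
      algebraMap K (AlgebraicClosure K) (a : K) * g (b : AlgebraicClosure K)
    rw [map_mul, AlgEquiv.commutes]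
  let B : ℕ → Set (G × G) := fun n => {q | q.2 ∈ (F n).fixingSubgroup ∧
    (∀ x : 𝓞 (AlgebraicClosure K), (q.1⁻¹ • (q.2 • x) ∈ P₀ ↔ q.1⁻¹ • x ∈ P₀)) ∧
    ∀ j : ℕ, (q.2 ^ p ^ j) θ ≠ θ}
  have hBanti : ∀ n, B (n + 1) ⊆ B n := by
    rintro n q ⟨h1, h2, h3⟩
    refine ⟨?_, h2, h3⟩
    exact IntermediateField.fixingSubgroup_le (hmono (Nat.le_succ n)) h1
  have hBanti' : Antitone B := antitone_nat_of_succ_le hBanti
  have hBcl : ∀ n, IsClosed (B n) := by
    intro n
    have e1 : IsClosed {q : G × G | q.2 ∈ (F n).fixingSubgroup} :=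
      (IntermediateField.fixingSubgroup_isClosed (F n)).preimage continuous_snd
    have e2 : IsClosed {q : G × G | ∀ x : 𝓞 (AlgebraicClosure K),
        (q.1⁻¹ • (q.2 • x) ∈ P₀ ↔ q.1⁻¹ • x ∈ P₀)} := by
      rw [Set.ofPred_forall]
      refine isClosed_iInter fun x => ?_
      have hc : Continuous fun q : G × G => (q.1⁻¹ • (q.2 • x), q.1⁻¹ • x) := by
        fun_prop
      have hd : IsClosed {z : 𝓞 (AlgebraicClosure K) × 𝓞 (AlgebraicClosure K) |
          z.1 ∈ P₀ ↔ z.2 ∈ P₀} := isClosed_discrete _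
      exact hd.preimage hc
    have e3 : IsClosed {q : G × G | ∀ j : ℕ, (q.2 ^ p ^ j) θ ≠ θ} := by
      rw [Set.ofPred_forall]
      refine isClosed_iInter fun j => ?_
      have h1 := stabilizer_isOpen_of_isIntegral (K := K) (L := AlgebraicClosure K) θ
      have hc : Continuous fun q : G × G => q.2 ^ p ^ j := by fun_prop
      have h2 := (h1.preimage hc).isClosed_compl
      exact h2
    have : B n = {q : G × G | q.2 ∈ (F n).fixingSubgroup} ∩
        ({q : G × G | ∀ x : 𝓞 (AlgebraicClosure K),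
        (q.1⁻¹ • (q.2 • x) ∈ P₀ ↔ q.1⁻¹ • x ∈ P₀)} ∩
        {q : G × G | ∀ j : ℕ, (q.2 ^ p ^ j) θ ≠ θ}) := rfl
    rw [this]
    exact e1.inter (e2.inter e3)
  have hBne : ∀ n, (B n).Nonempty := by
    intro n
    obtain ⟨n', hn', σ, hσ, P, hP, hPv, hPσ, hj⟩ := hcon n
    obtain ⟨g, hg⟩ := Algebra.IsInvariant.exists_smul_of_under_eq_of_profinite
      (A := 𝓞 K) (G := G) P₀ P (hP₀v.over.symm.trans hPv.over)
    refine ⟨(g, σ), hBanti' hn' ⟨hσ, ?_, ?_⟩⟩
    · intro x
      have h1 : ∀ y : 𝓞 (AlgebraicClosure K), g⁻¹ • y ∈ P₀ ↔ y ∈ P := by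
        intro y
        rw [hg, Ideal.mem_pointwise_smul_iff_inv_smul_mem]
      rw [h1, h1]
      exact hPσ x
    · intro j hj'
      obtain ⟨x, hx, hne⟩ := hj j
      exact hne (hgen _ hj' x hx)
  obtain ⟨⟨g, σ⟩, hgσ⟩ := IsCompact.nonempty_iInter_of_sequence_nonempty_isCompact_isClosed
    B hBanti hBne ((hBcl 0).isCompact) hBcl
  rw [Set.mem_iInter] at hgσ
  have hσfix : ∀ n, σ ∈ (F n).fixingSubgroup := fun n => (hgσ n).1
  have hσstab := (hgσ 0).2.1
  have hσθ := (hgσ 0).2.2
  have hσKi : σ ∈ Ki.fixingSubgroup := by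
    have h1 : Ki ≤ IntermediateField.fixedField (Subgroup.zpowers σ) := by
      rw [hKi]
      refine iSup_le fun n x hx => ?_
      rw [IntermediateField.mem_fixedField_iff]
      intro ρ hρ
      have h2 : Subgroup.zpowers σ ≤ (F n).fixingSubgroup := by
        rw [Subgroup.zpowers_le]
        exact hσfix n
      exact (IntermediateField.mem_fixingSubgroup_iff _ _).1 (h2 hρ) x hx
    rw [IntermediateField.mem_fixingSubgroup_iff]
    intro x hx
    have h2 := h1 hx
    rw [IntermediateField.mem_fixedField_iff] at h2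
    exact h2 σ (Subgroup.mem_zpowers σ)
  let σ' : Gal(AlgebraicClosure K/Ki) := IntermediateField.fixingSubgroupEquiv Ki ⟨σ, hσKi⟩
  have hσ'x : ∀ x, σ' x = σ x := fun x => rfl
  let P : Ideal (𝓞 (AlgebraicClosure K)) := g • P₀
  have hPmem : ∀ y : 𝓞 (AlgebraicClosure K), g⁻¹ • y ∈ P₀ ↔ y ∈ P := by
    intro y
    exact (Ideal.mem_pointwise_smul_iff_inv_smul_mem).symm
  have hPprime : P.IsPrime := by
    have := hP₀
    exact inferInstanceAs (g • P₀).IsPrime
  have hPne : P ≠ ⊥ := by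
    intro h
    have h1 : P₀ = ⊥ := by
      rw [eq_bot_iff]
      intro x hx
      have h2 : g • x ∈ P := (hPmem _).1 (by rwa [inv_smul_smul])
      rw [h, Ideal.mem_bot] at h2
      have h3 : x = 0 := by
        have := congrArg (fun y => g⁻¹ • y) h2
        simpa using this
      rw [h3]
      exact Submodule.zero_mem _
    apply v.ne_bot
    rw [hP₀v.over, h1]
    rw [eq_bot_iff]
    intro x hx
    rw [Ideal.mem_comap, Ideal.mem_bot] at hx
    rw [Ideal.mem_bot]
    exact (FaithfulSMul.algebraMap_injective (𝓞 K) (𝓞 (AlgebraicClosure K))) (by rw [hx, map_zero])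
  obtain ⟨w, hw, w1, w2, w3⟩ := hBr K P hPprime hPne
  have hσP : ∀ x : 𝓞 (AlgebraicClosure K), σ • x ∈ P ↔ x ∈ P := by
    intro x
    rw [← hPmem, ← hPmem]
    exact hσstab x
  have hwσ : ∀ x, w (σ' x) = w x := fun x => v_of_stab P w hw w1 w2 w3 σ hσP x
  obtain ⟨j, hj⟩ := hall w hw σ' hwσ θ
  apply hσθ j
  have h5 : ∀ (m : ℕ) (x : AlgebraicClosure K), (σ' ^ m) x = (σ ^ m) x := by
    intro m
    induction m with
    | zero => intro x; rfl
    | succ m ih =>
      intro x
      rw [pow_succ', pow_succ', AlgEquiv.mul_apply, AlgEquiv.mul_apply, ih, hσ'x]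
  rw [← h5]
  exact hj

end

end Pool.Agent.MP_0d9be2.H63
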