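import Pool.Agent.Lib.MP_0d9be2_nt.H63.Final
import Pool.Agent.Lib.MP_0d9be2_nt.H15.Share
import Pool.Agent.Lib.MP_0d9be2_nt.H36.Second

/-!
# The tower theorem: the last piece
-/

set_option autoImplicit false

open scoped NumberField Pointwise
open IsDedekindDomain NumberField

namespace Pool.Agent.MP_0d9be2.H63

theorem second_S : Second_S := by
  intro K _ _ F hmono nf Ki hKi v hv _ huniq E _ m
  exact H36.second H7.bridge F hmono nf Ki hKi v huniq E m

end Pool.Agent.MP_0d9be2.H63
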