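import Pool.Agent.Lib.MP_0d9be2_nt.H15.Rel

/-!
# Powers: a general set of exponents
-/

set_option autoImplicit false

open scoped NumberField
open IsDedekindDomain

namespace Pool.Agent.MP_0d9be2.H63

open Pool.Agent.MP_0d9be2.H15

/-- If `m 1 = ∑ n_H Ind_H 1` and for every `H` in the relation the power of `L(E/M^H, s)` with
exponent `k H` continues, then so does the power of `L(E/K, s)` with exponent `m ∏ k H`. -/
theorem power_prod (hP : Primes_S) (hC : Curves_S) (hMin : Minimal_S) (K M : Type)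
    [Field K] [NumberField K]
    [Field M] [NumberField M] [Algebra K M] [IsGalois K M] (E : WeierstrassCurve K) [E.IsElliptic]
    (T : Finset (Subgroup Gal(M/K))) (n : Subgroup Gal(M/K) → ℤ) (m : ℕ)
    (hn : ∀ g : Gal(M/K), ∑ H ∈ T, n H * (Nat.card {x : Gal(M/K) ⧸ H // g • x = x} : ℤ) = m)
    (k : Subgroup Gal(M/K) → ℕ)
    (hkc : ∀ H ∈ T, PowerContinues (E.map (algebraMap K (IntermediateField.fixedField H))) (k H)) :
    PowerContinues E (m * ∏ H ∈ T, k H) := by
  classical
  intro W hW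
  choose V hV using fun (H : Subgroup Gal(M/K))
      (w : HeightOneSpectrum (𝓞 (IntermediateField.fixedField H))) =>
    hMin _ (E.map (algebraMap K (IntermediateField.fixedField H))) w
  obtain ⟨R, hRm, -, hR⟩ := relation hP hC K M E T n m hn W hW V hV
  have hcont : ∀ H ∈ T, ∃ f : ℂ → ℂ, MeromorphicOn f Set.univ ∧ ∀ s : ℂ, 2 < s.re →
      f s = (∏' w : HeightOneSpectrum (𝓞 (IntermediateField.fixedField H)),
        factor (V H w) w s) ^ k H := fun H hH => hkc H hH (V H) (hV H)
  choose! f hfm hfs using hcont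
  refine ⟨fun s => R s ^ (∏ H ∈ T, k H) * ∏ H ∈ T, (f H s) ^ (n H * ∏ H' ∈ T.erase H, (k H' : ℤ)),
    ?_, ?_⟩
  · refine MeromorphicOn.fun_mul (MeromorphicOn.fun_pow hRm _) ?_
    refine MeromorphicOn.fun_prod fun H hH => ?_
    exact MeromorphicOn.fun_zpow (hfm H hH) _
  · intro s hs
    rw [pow_mul]
    have h1 := hR s hs
    rw [zpow_natCast] at h1
    rw [h1, mul_pow]
    beta_reduce
    congr 1
    symm
    refine (Finset.prod_pow T (∏ H ∈ T, k H) (fun H : Subgroup Gal(M/K) =>
      (∏' w : HeightOneSpectrum (𝓞 (IntermediateField.fixedField H)),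
        factor (V H w) w s) ^ n H)).symm.trans ?_
    refine Finset.prod_congr rfl fun H hH => ?_
    rw [hfs H hH s hs, ← Finset.mul_prod_erase T k hH, ← zpow_natCast, ← zpow_natCast, ← zpow_mul,
      ← zpow_mul]
    congr 1
    push_cast
    ring

/-- Exponents in a multiplicatively closed set which contains all numbers prime to `p`. -/
theorem power_of_relation_set (hP : Primes_S) (hC : Curves_S) (hMin : Minimal_S) (K M : Type)
    [Field K] [NumberField K]
    [Field M] [NumberField M] [Algebra K M] [IsGalois K M] (E : WeierstrassCurve K) [E.IsElliptic]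
    (T : Finset (Subgroup Gal(M/K))) (n : Subgroup Gal(M/K) → ℤ) (m p : ℕ) (hp : p.Prime)
    (hn : ∀ g : Gal(M/K), ∑ H ∈ T, n H * (Nat.card {x : Gal(M/K) ⧸ H // g • x = x} : ℤ) = m)
    (hm : ¬ p ∣ m) (S : Set ℕ) (hSmul : ∀ a ∈ S, ∀ b ∈ S, a * b ∈ S)
    (hSp : ∀ k : ℕ, ¬ p ∣ k → k ∈ S)
    (hF : ∀ H ∈ T, ∃ k ∈ S,
      PowerContinues (E.map (algebraMap K (IntermediateField.fixedField H))) k) :
    ∃ k ∈ S, PowerContinues E k := by
  choose! k hk hkc using hF
  refine ⟨m * ∏ H ∈ T, k H, hSmul _ (hSp m hm) _ ?_, power_prod hP hC hMin K M E T n m hn k hkc⟩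
  have h1 : (1 : ℕ) ∈ S := hSp 1 (fun h => hp.one_lt.ne' (Nat.dvd_one.1 h))
  exact Finset.prod_induction k (fun x => x ∈ S) (fun a b ha hb => hSmul a ha b hb) h1 hk

end Pool.Agent.MP_0d9be2.H63
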