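import Pool.Agent.Lib.MP_0d9be2_nt.H63.Embed
import Pool.Agent.Lib.MP_0d9be2_nt.H63.Iface
import Pool.Agent.Lib.MP_0d9be2_nt.H63.Power

/-!
# The step of the tower
-/

set_option autoImplicit false

open scoped NumberField Pointwise
open IsDedekindDomain NumberField

namespace Pool.Agent.MP_0d9be2.H63

open Pool.Agent.MP_0d9be2.H36

section

variable {K : Type} [Field K] [NumberField K]

theorem numberField_comp (F M : IntermediateField K (AlgebraicClosure K)) [NumberField F]
    [FiniteDimensional K M] : NumberField (comp F M) := by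
  have h1 : FiniteDimensional K F := Module.Finite.of_restrictScalars_finite ℚ K F
  have h2 : FiniteDimensional K ↥(F ⊔ M) := inferInstance
  have h3 : NumberField ↥(F ⊔ M) := NumberField.of_module_finite K ↥(F ⊔ M)
  exact h3

theorem isGalois_comp (F M : IntermediateField K (AlgebraicClosure K)) [NumberField F]
    [FiniteDimensional K M] [IsGalois K M] : IsGalois F (comp F M) := by
  have h1 : Normal F (comp F M) := normal_comp F M
  exact { }

/-- `M` inside the compositum. -/
noncomputable def inclM (F M : IntermediateField K (AlgebraicClosure K)) : M →+* comp F M :=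
  (IntermediateField.inclusion (le_sup_right : M ≤ F ⊔ M)).toRingHom

theorem inclM_coe (F M : IntermediateField K (AlgebraicClosure K)) (x : M) :
    ((inclM F M x : comp F M) : AlgebraicClosure K) = x := rfl

theorem isCompositum_comp (F M : IntermediateField K (AlgebraicClosure K)) [NumberField F]
    [FiniteDimensional K M] :
    letI : Algebra M (comp F M) := (inclM F M).toAlgebra
    IsCompositum K M F (comp F M) := by
  letI : Algebra M (comp F M) := (inclM F M).toAlgebra
  refine ⟨IsScalarTower.of_algebraMap_eq fun x => ?_, IsScalarTower.of_algebraMap_eq fun x => ?_,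
    ?_⟩
  · rfl
  · rfl
  · rw [eq_top_iff]
    intro x _
    have h1 : (x : AlgebraicClosure K) ∈ (F ⊔ M : IntermediateField K (AlgebraicClosure K)) := x.2
    have h2 : (F ⊔ M : IntermediateField K (AlgebraicClosure K)).toSubalgebra =
        F.toSubalgebra ⊔ M.toSubalgebra :=
      IntermediateField.sup_toSubalgebra_of_isAlgebraic_right F M
    have h3 : (x : AlgebraicClosure K) ∈ F.toSubalgebra ⊔ M.toSubalgebra := by
      rw [← h2]
      exact h1
    -- the subalgebra generated by `M` over `F`, pushed to the algebraic closure
    let B : Subalgebra F (AlgebraicClosure K) :=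
      (Algebra.adjoin F (Set.range (algebraMap M (comp F M)))).map (comp F M).val
    have hB : F.toSubalgebra ⊔ M.toSubalgebra ≤ B.restrictScalars K := by
      refine sup_le ?_ ?_
      · intro y hy
        exact B.algebraMap_mem ⟨y, hy⟩
      · intro y hy
        refine ⟨algebraMap M (comp F M) ⟨y, hy⟩, Algebra.subset_adjoin ⟨_, rfl⟩, rfl⟩
    obtain ⟨z, hz, hzx⟩ := hB h3
    have : z = x := Subtype.ext hzx
    rw [← this]
    exact hz

/-- The step of the tower. -/
theorem step (hP : Primes_S) (hC : Curves_S) (hMin : Minimal_S) (hSplit : Split_S)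
    (hT : ShareTower_S) (hI : ShareIso_S) {p : ℕ} (hp : p.Prime) (S : Set ℕ)
    (hSmul : ∀ a ∈ S, ∀ b ∈ S, a * b ∈ S) (hSp : ∀ k : ℕ, ¬ p ∣ k → k ∈ S)
    (E : WeierstrassCurve K)
    [E.IsElliptic] (F M : IntermediateField K (AlgebraicClosure K)) [FiniteDimensional K M]
    [IsGalois K M] (hF : BadAt S E F) (m : ℕ) :
    ∃ F' : IntermediateField K (AlgebraicClosure K), F ≤ F' ∧ BadAt S E F' ∧
      IsPHyper p (F'.fixingSubgroup.map
        (AlgEquiv.restrictNormalHom M : Gal(AlgebraicClosure K/K) →* Gal(M/K))) ∧
      ∀ _ : NumberField F',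
        (∀ v : HeightOneSpectrum (𝓞 K), m * badDeg K M F' v ≤ Module.finrank K F') ∧
        (∀ v : InfinitePlace K, m * badInf K M F' v ≤ Module.finrank K F') := by
  obtain ⟨nfF, hbad⟩ := hF
  have nf1 : NumberField M := NumberField.of_module_finite K M
  have nf2 : NumberField (comp F M) := numberField_comp F M
  have gal2 : IsGalois F (comp F M) := isGalois_comp F M
  obtain ⟨N, _, _, _, _, _, _, hN⟩ := hSplit F (comp F M) m
  obtain ⟨m', T, n, hm', hT', hrel⟩ := solomon_p p hp Gal(N/F)
  -- a bad subgroup
  obtain ⟨H, hHT, hHbad⟩ : ∃ H ∈ T, Bad S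
      ((E.map (algebraMap K F)).map (algebraMap F (IntermediateField.fixedField H))) := by
    by_contra hcon
    push Not at hcon
    obtain ⟨k, hk, hkc⟩ := power_of_relation_set hP hC hMin F N (E.map (algebraMap K F)) T n m' p
      hp hrel hm' S hSmul hSp (fun H hH => by
        have := hcon H hH
        unfold Bad at this
        push Not at this
        exact this)
    exact hbad k hk hkc
  have hH : IsPHyper p H := hT' H hHT
  -- the embedding
  have alg1 : Algebra.IsAlgebraic (comp F M) N := by
    have : Module.Finite (comp F M) N := Module.Finite.of_restrictScalars_finite ℚ _ _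
    exact Algebra.IsAlgebraic.of_finite _ _
  let ι : N →ₐ[comp F M] AlgebraicClosure K := IsAlgClosed.lift
  let ιF : N →ₐ[F] AlgebraicClosure K := ι.restrictScalars F
  let X : IntermediateField F (AlgebraicClosure K) := (IntermediateField.fixedField H).map ιF
  let F' : IntermediateField K (AlgebraicClosure K) := X.restrictScalars K
  let e : IntermediateField.fixedField H ≃ₐ[F] X := IntermediateField.equivMap _ ιF
  have nfX : NumberField X := NumberField.of_ringEquiv _ _ e.toRingEquiv
  have nfF' : NumberField F' := nfX
  have hFF' : F ≤ F' := fun x hx => X.algebraMap_mem ⟨x, hx⟩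
  refine ⟨F', hFF', ⟨nfF', ?_⟩, ?_, ?_⟩
  · intro k hk hcont
    let e' : F' ≃+* IntermediateField.fixedField H := e.symm.toRingEquiv
    have h1 := powerContinues_map e' _ k hcont
    have h2 : (E.map (algebraMap K F')).map e'.toRingHom =
        (E.map (algebraMap K F)).map (algebraMap F (IntermediateField.fixedField H)) := by
      rw [WeierstrassCurve.map_map, WeierstrassCurve.map_map]
      congr 1
      ext x
      have h3 : e.symm (algebraMap F X (algebraMap K F x)) =
        algebraMap F (IntermediateField.fixedField H) (algebraMap K F x) := e.symm.commutes _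
      exact congrArg _ h3
    rw [h2] at h1
    exact hHbad k hk h1
  · -- the Galois group
    let algN : Algebra N (AlgebraicClosure K) := ιF.toRingHom.toAlgebra
    have tow1 : IsScalarTower F N (AlgebraicClosure K) := IsScalarTower.of_algebraMap_eq fun x =>
      (ιF.commutes x).symm
    let j : ↥F'.fixingSubgroup →* ↥F.fixingSubgroup :=
      Subgroup.inclusion (IntermediateField.fixingSubgroup_le hFF')
    let f : ↥F'.fixingSubgroup →* Gal(N/F) :=
      (AlgEquiv.restrictNormalHom N).comp
        ((IntermediateField.fixingSubgroupEquiv F).toMonoidHom.comp j)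
    have hf : ∀ (σ : ↥F'.fixingSubgroup) (x : N), ιF (f σ x) = σ.1 (ιF x) := by
      intro σ x
      exact AlgEquiv.restrictNormal_commutes
        (IntermediateField.fixingSubgroupEquiv F (j σ)) N x
    refine IsPHyper.of_ker_le hp f
      ((AlgEquiv.restrictNormalHom M : Gal(AlgebraicClosure K/K) →* Gal(M/K)).subgroupMap
        F'.fixingSubgroup) (MonoidHom.subgroupMap_surjective _ _) ?_ ?_
    · intro σ hσ
      rw [MonoidHom.mem_ker] at hσ ⊢
      apply Subtype.ext
      change AlgEquiv.restrictNormalHom M σ.1 = 1
      ext y
      rw [AlgEquiv.restrictNormalHom_apply]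
      have h1 : ιF (algebraMap (comp F M) N (inclM F M y)) = (y : AlgebraicClosure K) :=
        ι.commutes (inclM F M y)
      have h2 := hf σ (algebraMap (comp F M) N (inclM F M y))
      rw [hσ] at h2
      rw [AlgEquiv.one_apply, h1] at h2
      exact h2.symm
    · refine IsPHyper.of_le hp ?_ hH
      rintro _ ⟨σ, rfl⟩
      rw [← IntermediateField.fixingSubgroup_fixedField H,
        IntermediateField.mem_fixingSubgroup_iff]
      intro x hx
      apply ιF.injective
      refine (hf σ x).trans ?_
      have h3 : ιF x ∈ F' := ⟨x, hx, rfl⟩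
      exact (IntermediateField.mem_fixingSubgroup_iff _ _).1 σ.2 _ h3
  · intro nfF''
    let _ : Algebra M (comp F M) := (inclM F M).toAlgebra
    obtain ⟨hfin, hinf⟩ := hN p hp H hH
    have hfr : Module.finrank F (IntermediateField.fixedField H) = Module.finrank F X :=
      e.toLinearEquiv.finrank_eq
    have hiso := hI F (comp F M) (IntermediateField.fixedField H) X e
    have htow := hT K M F (comp F M) X (isCompositum_comp F M) m
    let e2 : X ≃ₐ[K] F' := AlgEquiv.refl
    have hiso2 := hI K M X F' e2
    have hfr2 : Module.finrank K X = Module.finrank K F' := e2.toLinearEquiv.finrank_eq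
    refine ⟨fun v => ?_, fun v => ?_⟩
    · rw [hiso2.1, ← hfr2]
      refine htow.1 (fun u => ?_) v
      rw [hiso.1, ← hfr]
      exact hfin u
    · rw [hiso2.2, ← hfr2]
      refine htow.2 (fun u => ?_) v
      rw [hiso.2, ← hfr]
      exact hinf u

end

end Pool.Agent.MP_0d9be2.H63
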