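import Pool.Agent.Lib.MP_0d9be2_nt.H63.D3

/-!
# The infinite places in the tower
-/

set_option autoImplicit false

open scoped NumberField Pointwise ComplexConjugate
open IsDedekindDomain NumberField

namespace Pool.Agent.MP_0d9be2.H63

open Pool.Agent.MP_0d9be2.H36

section

variable {K : Type} [Field K] [NumberField K]

/-- The absolute value of a complex embedding. -/
noncomputable def absEmb (ψ : AlgebraicClosure K →+* ℂ) :
    AbsoluteValue (AlgebraicClosure K) ℝ where
  toFun x := ‖ψ x‖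
  map_mul' x y := by simp
  nonneg' x := norm_nonneg _
  eq_zero' x := by simp
  add_le' x y := by
    rw [map_add]
    exact norm_add_le _ _

theorem absEmb_apply (ψ : AlgebraicClosure K →+* ℂ) (x : AlgebraicClosure K) :
    absEmb ψ x = ‖ψ x‖ := rfl

theorem absEmb_nontrivial (ψ : AlgebraicClosure K →+* ℂ) : (absEmb ψ).IsNontrivial := by
  refine ⟨2, two_ne_zero, ?_⟩
  rw [absEmb_apply, map_ofNat]
  norm_num

/-- In the first alternative, with `p` odd, the fields of the tower become totally complex. -/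
theorem d4 {p : ℕ} (hp : p.Prime) (hp2 : p ≠ 2)
    (F : ℕ → IntermediateField K (AlgebraicClosure K)) (hmono : Monotone F)
    (Ki : IntermediateField K (AlgebraicClosure K)) (hKi : Ki = ⨆ n, F n)
    (hall : ∀ v : AbsoluteValue (AlgebraicClosure K) ℝ, v.IsNontrivial →
      ∀ σ : Gal(AlgebraicClosure K/Ki), (∀ x, v (σ x) = v x) → ∀ x, ∃ j : ℕ, (σ ^ p ^ j) x = x) :
    ∃ n₀ : ℕ, ∀ n, n₀ ≤ n → ∀ w : InfinitePlace (F n), w.IsComplex := by
  classical
  let G := Gal(AlgebraicClosure K/K)
  have hext : ∀ τ : K →+* ℂ, ∃ φ : AlgebraicClosure K →+* ℂ,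
      ∀ x : K, φ (algebraMap K (AlgebraicClosure K) x) = τ x := by
    intro τ
    let _ : Algebra K ℂ := τ.toAlgebra
    let φ : AlgebraicClosure K →ₐ[K] ℂ := IsAlgClosed.lift
    exact ⟨φ.toRingHom, fun x => φ.commutes x⟩
  choose φ hφ using hext
  -- automorphisms from pairs of embeddings
  have haut : ∀ (τ : K →+* ℂ) (ψ₁ ψ₂ : AlgebraicClosure K →+* ℂ),
      (∀ x : K, ψ₁ (algebraMap K (AlgebraicClosure K) x) = τ x) →
      (∀ x : K, ψ₂ (algebraMap K (AlgebraicClosure K) x) = τ x) →
      ∃ g : G, ∀ x, ψ₁ (g x) = ψ₂ x := by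
    intro τ ψ₁ ψ₂ h1 h2
    let _ : Algebra K ℂ := τ.toAlgebra
    let _ : Algebra (AlgebraicClosure K) ℂ := ψ₁.toAlgebra
    have tow : IsScalarTower K (AlgebraicClosure K) ℂ :=
      IsScalarTower.of_algebraMap_eq fun x => (h1 x).symm
    let ψ : AlgebraicClosure K →ₐ[K] ℂ := { ψ₂ with commutes' := h2 }
    refine ⟨Normal.algHomEquivAut K ℂ (AlgebraicClosure K) ψ, fun x => ?_⟩
    have h3 := (Normal.algHomEquivAut K ℂ (AlgebraicClosure K)).symm_apply_apply ψ
    exact congrArg (fun f : AlgebraicClosure K →ₐ[K] ℂ => f x) h3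
  let B : (K →+* ℂ) → ℕ → Set G := fun τ n =>
    {g | ∀ x ∈ F n, conj (φ τ (g x)) = φ τ (g x)}
  have hBanti : ∀ τ n, B τ (n + 1) ⊆ B τ n := by
    intro τ n g hg x hx
    exact hg x (hmono (Nat.le_succ n) hx)
  have hBanti' : ∀ τ, Antitone (B τ) := fun τ => antitone_nat_of_succ_le (hBanti τ)
  have hBcl : ∀ τ n, IsClosed (B τ n) := by
    intro τ n
    have h0 : B τ n = ⋂ (x : AlgebraicClosure K) (_ : x ∈ F n),
        {g : G | conj (φ τ (g x)) = φ τ (g x)} := by
      ext g
      simp only [Set.mem_iInter]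
      rfl
    rw [h0]
    refine isClosed_iInter fun x => isClosed_iInter fun _ => ?_
    rw [← isOpen_compl_iff, isOpen_iff_forall_mem_open]
    intro g hg
    have h1 := stabilizer_isOpen_of_isIntegral (K := K) (L := AlgebraicClosure K) x
    refine ⟨(fun s : G => g⁻¹ * s) ⁻¹' (MulAction.stabilizer G x : Set G), ?_, ?_, ?_⟩
    · intro s hs
      have h2 : (g⁻¹ * s) x = x := hs
      have h3 : s x = g x := by
        have h4 := congrArg g h2
        rw [← AlgEquiv.mul_apply, mul_inv_cancel_left] at h4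
        exact h4
      intro h5
      apply hg
      change conj (φ τ (g x)) = φ τ (g x)
      have h6 : conj (φ τ (s x)) = φ τ (s x) := h5
      rwa [h3] at h6
    · exact h1.preimage (by fun_prop)
    · change g⁻¹ * g ∈ MulAction.stabilizer G x
      rw [inv_mul_cancel]
      exact Subgroup.one_mem _
  -- the limit
  have hlim : ∀ τ : K →+* ℂ, ∃ n, ¬ (B τ n).Nonempty := by
    intro τ
    by_contra hcon
    push Not at hcon
    obtain ⟨g, hg⟩ := IsCompact.nonempty_iInter_of_sequence_nonempty_isCompact_isClosed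
      (B τ) (hBanti τ) hcon ((hBcl τ 0).isCompact) (hBcl τ)
    rw [Set.mem_iInter] at hg
    let ψ : AlgebraicClosure K →+* ℂ := (φ τ).comp (g : AlgebraicClosure K →+* AlgebraicClosure K)
    have hψ : ∀ x, ψ x = φ τ (g x) := fun x => rfl
    have hψK : ∀ x : K, ψ (algebraMap K (AlgebraicClosure K) x) = τ x := by
      intro x
      rw [hψ, AlgEquiv.commutes, hφ]
    have hτ : ∀ x : K, conj (τ x) = τ x := by
      intro x
      have := hg 0 (algebraMap K (AlgebraicClosure K) x) ((F 0).algebraMap_mem x)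
      rwa [← hψ, hψK] at this
    obtain ⟨c, hc⟩ := haut τ ψ ((starRingEnd ℂ).comp ψ) hψK (fun x => by
      rw [RingHom.comp_apply, hψK, hτ])
    have hc' : ∀ x, ψ (c x) = conj (ψ x) := hc
    have hcfix : ∀ n, c ∈ (F n).fixingSubgroup := by
      intro n
      rw [IntermediateField.mem_fixingSubgroup_iff]
      intro x hx
      apply ψ.injective
      rw [hc', hψ]
      exact hg n x hx
    have hcKi : c ∈ Ki.fixingSubgroup := by
      have h1 : Ki ≤ IntermediateField.fixedField (Subgroup.zpowers c) := by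
        rw [hKi]
        refine iSup_le fun n x hx => ?_
        rw [IntermediateField.mem_fixedField_iff]
        intro ρ hρ
        have h2 : Subgroup.zpowers c ≤ (F n).fixingSubgroup := by
          rw [Subgroup.zpowers_le]
          exact hcfix n
        exact (IntermediateField.mem_fixingSubgroup_iff _ _).1 (h2 hρ) x hx
      rw [IntermediateField.mem_fixingSubgroup_iff]
      intro x hx
      have h2 := h1 hx
      rw [IntermediateField.mem_fixedField_iff] at h2
      exact h2 c (Subgroup.mem_zpowers c)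
    let c' : Gal(AlgebraicClosure K/Ki) := IntermediateField.fixingSubgroupEquiv Ki ⟨c, hcKi⟩
    have hc'x : ∀ x, c' x = c x := fun x => rfl
    have hcc : ∀ x, c' (c' x) = x := by
      intro x
      rw [hc'x, hc'x]
      apply ψ.injective
      rw [hc', hc', Complex.conj_conj]
    have hcodd : ∀ (j : ℕ) (x : AlgebraicClosure K), (c' ^ p ^ j) x = c' x := by
      intro j x
      have hodd : Odd (p ^ j) := (hp.odd_of_ne_two hp2).pow
      obtain ⟨m, hm⟩ := hodd
      have h2 : c' ^ 2 = 1 := by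
        ext y
        rw [pow_two, AlgEquiv.mul_apply, hcc]
        rfl
      rw [hm, pow_succ, pow_mul, h2, one_pow, one_mul]
    obtain ⟨i, hi⟩ := IsAlgClosed.exists_pow_nat_eq (-1 : AlgebraicClosure K) (n := 2) two_pos
    obtain ⟨j, hj⟩ := hall (absEmb ψ) (absEmb_nontrivial ψ) c' (fun x => by
      rw [absEmb_apply, absEmb_apply, hc'x, hc', RCLike.norm_conj]) i
    rw [hcodd, hc'x] at hj
    have h3 : conj (ψ i) = ψ i := by rw [← hc', hj]
    have h4 : ψ i ^ 2 = -1 := by rw [← map_pow, hi, map_neg, map_one]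
    obtain ⟨r, hr⟩ := Complex.conj_eq_iff_real.1 h3
    rw [hr] at h4
    have h5 : r ^ 2 = -1 := by exact_mod_cast h4
    nlinarith [sq_nonneg r]
  choose n hn using hlim
  refine ⟨Finset.univ.sup n, fun m hm w => ?_⟩
  by_contra hw
  rw [InfinitePlace.not_isComplex_iff_isReal] at hw
  -- the real embedding
  set e : F m →+* ℂ := w.embedding with he
  have hreal : ∀ x : F m, conj (e x) = e x := by
    intro x
    have h1 : ComplexEmbedding.IsReal e := InfinitePlace.isReal_iff.1 hw
    exact congrArg (fun f : F m →+* ℂ => f x) h1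
  let τ : K →+* ℂ := e.comp (algebraMap K (F m))
  -- extension of the real embedding
  obtain ⟨ψ, hψ⟩ : ∃ ψ : AlgebraicClosure K →+* ℂ, ∀ x : F m, ψ x = e x := by
    let _ : Algebra (F m) ℂ := e.toAlgebra
    have halg : Algebra.IsAlgebraic (F m) (AlgebraicClosure K) :=
      Algebra.IsAlgebraic.tower_top (K := K) (F m)
    let ψ : AlgebraicClosure K →ₐ[F m] ℂ := IsAlgClosed.lift
    exact ⟨ψ.toRingHom, fun x => ψ.commutes x⟩
  obtain ⟨g, hg⟩ := haut τ (φ τ) ψ (hφ τ) (fun x => hψ (algebraMap K (F m) x))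
  apply hn τ
  refine ⟨g, fun x hx => ?_⟩
  have hx' : x ∈ F m := hmono ((Finset.le_sup (Finset.mem_univ τ)).trans hm) hx
  rw [hg]
  have h1 := hψ ⟨x, hx'⟩
  have h2 := hreal ⟨x, hx'⟩
  rw [← h1] at h2
  exact h2

end

end Pool.Agent.MP_0d9be2.H63
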