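import Pool.Agent.Lib.MP_0d9be2_nt.H15.Rel

/-!
# MP_0d9be2_nt: continuation is invariant under isomorphisms of number fields
-/

set_option autoImplicit false

open scoped NumberField
open IsDedekindDomain

namespace Pool.Agent.MP_0d9be2.H63

section transport

variable {K₁ K₂ : Type} [Field K₁] [NumberField K₁] [Field K₂] [NumberField K₂] (e : K₁ ≃+* K₂)

/-- The isomorphism of the rings of integers. -/
noncomputable abbrev phi : 𝓞 K₁ ≃+* 𝓞 K₂ := NumberField.RingOfIntegers.mapRingEquiv e

/-- The bijection between the primes. -/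
noncomputable def hos : HeightOneSpectrum (𝓞 K₁) ≃ HeightOneSpectrum (𝓞 K₂) where
  toFun p := ⟨p.asIdeal.comap (phi e).symm.toRingHom, p.isPrime.comap _, by
    intro h
    apply p.ne_bot
    rw [eq_bot_iff]
    intro x hx
    have h1 : (phi e) x ∈ p.asIdeal.comap (phi e).symm.toRingHom := by
      rw [Ideal.mem_comap]
      simpa using hx
    rw [h] at h1
    have h2 : (phi e) x = 0 := by simpa using h1
    simpa using h2⟩
  invFun p := ⟨p.asIdeal.comap (phi e).toRingHom, p.isPrime.comap _, by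
    intro h
    apply p.ne_bot
    rw [eq_bot_iff]
    intro x hx
    have h1 : (phi e).symm x ∈ p.asIdeal.comap (phi e).toRingHom := by
      rw [Ideal.mem_comap]
      simpa using hx
    rw [h] at h1
    have h2 : (phi e).symm x = 0 := by simpa using h1
    simpa using h2⟩
  left_inv p := by
    apply HeightOneSpectrum.ext
    ext x
    change (phi e).symm ((phi e) x) ∈ p.asIdeal ↔ x ∈ p.asIdeal
    rw [RingEquiv.symm_apply_apply]
  right_inv p := by
    apply HeightOneSpectrum.ext
    ext x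
    change (phi e) ((phi e).symm x) ∈ p.asIdeal ↔ x ∈ p.asIdeal
    rw [RingEquiv.apply_symm_apply]

theorem mem_hos (p : HeightOneSpectrum (𝓞 K₁)) (x : 𝓞 K₁) :
    (phi e) x ∈ (hos e p).asIdeal ↔ x ∈ p.asIdeal := by
  change (phi e).symm ((phi e) x) ∈ p.asIdeal ↔ x ∈ p.asIdeal
  rw [RingEquiv.symm_apply_apply]

theorem hos_eq_map (p : HeightOneSpectrum (𝓞 K₁)) :
    (hos e p).asIdeal = p.asIdeal.map ((phi e) : 𝓞 K₁ →+* 𝓞 K₂) := by
  have : (hos e p).asIdeal = p.asIdeal.comap (phi e).symm := rfl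
  rw [this]
  exact Ideal.comap_symm (phi e)

theorem mem_hos_pow (p : HeightOneSpectrum (𝓞 K₁)) (x : 𝓞 K₁) (n : ℕ) :
    (phi e) x ∈ (hos e p).asIdeal ^ n ↔ x ∈ p.asIdeal ^ n := by
  rw [hos_eq_map, ← Ideal.map_pow]
  have h1 := Ideal.mem_map_iff_of_surjective ((phi e) : 𝓞 K₁ →+* 𝓞 K₂) (phi e).surjective
    (I := p.asIdeal ^ n) (y := (phi e) x)
  rw [h1]
  constructor
  · rintro ⟨y, hy, hxy⟩
    have : y = x := (phi e).injective hxy
    rwa [← this]
  · intro hx
    exact ⟨x, hx, rfl⟩

/-- The isomorphism of the residue fields. -/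
noncomputable def quo (p : HeightOneSpectrum (𝓞 K₁)) :
    (𝓞 K₁ ⧸ p.asIdeal) ≃+* (𝓞 K₂ ⧸ (hos e p).asIdeal) :=
  Ideal.quotientEquiv _ _ (phi e) (hos_eq_map e p)

theorem quo_mk (p : HeightOneSpectrum (𝓞 K₁)) (x : 𝓞 K₁) :
    quo e p (Ideal.Quotient.mk p.asIdeal x) = Ideal.Quotient.mk (hos e p).asIdeal ((phi e) x) := by
  rfl

theorem absNorm_hos (p : HeightOneSpectrum (𝓞 K₁)) :
    Ideal.absNorm (hos e p).asIdeal = Ideal.absNorm p.asIdeal := by
  rw [Ideal.absNorm_apply, Ideal.absNorm_apply, Submodule.cardQuot_apply,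
    Submodule.cardQuot_apply]
  exact (Nat.card_congr (quo e p).toEquiv).symm

theorem affPts_hos (W : WeierstrassCurve (𝓞 K₁)) (p : HeightOneSpectrum (𝓞 K₁)) :
    affPts (W.map (phi e).toRingHom) (hos e p) = affPts W p := by
  unfold affPts
  symm
  have hcurve : (W.map (phi e).toRingHom).map (Ideal.Quotient.mk (hos e p).asIdeal) =
      (W.map (Ideal.Quotient.mk p.asIdeal)).map (quo e p).toRingHom := by
    rw [WeierstrassCurve.map_map, WeierstrassCurve.map_map]
    congr 1
  rw [hcurve]
  refine Nat.card_congr ((Equiv.prodCongr (quo e p).toEquiv (quo e p).toEquiv).subtypeEquiv ?_)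
  rintro ⟨x, y⟩
  exact (WeierstrassCurve.Affine.map_equation _ (f := (quo e p).toRingHom) (quo e p).injective
    x y).symm

theorem factor_hos (W : WeierstrassCurve (𝓞 K₁)) (p : HeightOneSpectrum (𝓞 K₁)) (s : ℂ) :
    factor (W.map (phi e).toRingHom) (hos e p) s = factor W p s := by
  unfold factor
  rw [affPts_hos, absNorm_hos]
  have : (W.map (phi e).toRingHom).Δ ∈ (hos e p).asIdeal ↔ W.Δ ∈ p.asIdeal := by
    rw [WeierstrassCurve.map_Δ]
    exact mem_hos e p W.Δ
  classical
  by_cases h : W.Δ ∈ p.asIdeal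
  · rw [if_pos h, if_pos (this.2 h)]
  · rw [if_neg h, if_neg (fun h' => h (this.1 h'))]

theorem isModel_map (E : WeierstrassCurve K₁) (W : WeierstrassCurve (𝓞 K₁)) (h : IsModel E W) :
    IsModel (E.map e.toRingHom) (W.map (phi e).toRingHom) := by
  obtain ⟨C, hC⟩ := h
  refine ⟨C.map e.toRingHom, ?_⟩
  have h1 : (W.map (phi e).toRingHom).map (algebraMap (𝓞 K₂) K₂) =
      (W.map (algebraMap (𝓞 K₁) K₁)).map e.toRingHom := by
    rw [WeierstrassCurve.map_map, WeierstrassCurve.map_map]
    congr 1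
  rw [h1, WeierstrassCurve.map_variableChange, hC]

end transport

section

variable {K₁ K₂ : Type} [Field K₁] [NumberField K₁] [Field K₂] [NumberField K₂] (e : K₁ ≃+* K₂)

theorem map_phi_symm (W : WeierstrassCurve (𝓞 K₂)) :
    (W.map (phi e.symm).toRingHom).map (phi e).toRingHom = W := by
  rw [WeierstrassCurve.map_map]
  have : (phi e).toRingHom.comp (phi e.symm).toRingHom = RingHom.id _ := by
    ext x
    simp [phi]
  rw [this, WeierstrassCurve.map_id]

theorem map_e_symm (E : WeierstrassCurve K₂) :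
    (E.map e.symm.toRingHom).map e.toRingHom = E := by
  rw [WeierstrassCurve.map_map]
  have : e.toRingHom.comp e.symm.toRingHom = RingHom.id _ := by
    ext x
    simp
  rw [this, WeierstrassCurve.map_id]

theorem isModel_of_map (E : WeierstrassCurve K₁) (W : WeierstrassCurve (𝓞 K₁))
    (h : IsModel (E.map e.toRingHom) (W.map (phi e).toRingHom)) : IsModel E W := by
  have h1 := isModel_map e.symm _ _ h
  have h2 : (E.map e.toRingHom).map e.symm.toRingHom = E := map_e_symm e.symm E
  have h3 : (W.map (phi e).toRingHom).map (phi e.symm).toRingHom = W := map_phi_symm e.symm W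
  rwa [h2, h3] at h1

theorem isMinimalAt_of_map (E : WeierstrassCurve K₁) (W : WeierstrassCurve (𝓞 K₁))
    (p : HeightOneSpectrum (𝓞 K₁))
    (h : IsMinimalAt (E.map e.toRingHom) (W.map (phi e).toRingHom) (hos e p)) :
    IsMinimalAt E W p := by
  refine ⟨isModel_of_map e E W h.1, fun W' hW' n hn => ?_⟩
  have h1 := h.2 (W'.map (phi e).toRingHom) (isModel_map e E W' hW') n ?_
  · rw [WeierstrassCurve.map_Δ] at h1
    exact (mem_hos_pow e p _ n).1 h1
  · rw [WeierstrassCurve.map_Δ]
    exact (mem_hos_pow e p _ n).2 hn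

/-- Continuation of powers of the `L`-function is invariant under isomorphisms. -/
theorem powerContinues_map (E : WeierstrassCurve K₁) (m : ℕ) (h : PowerContinues E m) :
    PowerContinues (E.map e.toRingHom) m := by
  intro W hW
  have key : ∀ p : HeightOneSpectrum (𝓞 K₁),
      IsMinimalAt E ((W (hos e p)).map (phi e.symm).toRingHom) p := by
    intro p
    apply isMinimalAt_of_map e
    rw [map_phi_symm]
    exact hW _
  obtain ⟨f, hf, hfs⟩ := h _ key
  refine ⟨f, hf, fun s hs => ?_⟩
  rw [hfs s hs]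
  congr 1
  rw [← (hos e).tprod_eq]
  refine tprod_congr fun p => ?_
  have h1 := factor_hos e ((W (hos e p)).map (phi e.symm).toRingHom) p s
  rw [map_phi_symm] at h1
  exact h1.symm

end

end Pool.Agent.MP_0d9be2.H63
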