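import Pool.Agent.Lib.MP_0d9be2_nt.H63.Tower
import Pool.Agent.Lib.MP_0d9be2_nt.H63.Transport

/-!
# Steps of the tower: from abstract number fields to subfields of the algebraic closure
-/

set_option autoImplicit false

open Filter

namespace Pool.Agent.MP_0d9be2.H63

open Pool.Agent.MP_0d9be2.H36

section

variable {K : Type} [Field K] [NumberField K]

/-- No power of `L(E/F, s)` with exponent in `S` has a meromorphic continuation. -/
def Bad {K : Type} [Field K] [NumberField K] (S : Set ℕ) (E : WeierstrassCurve K) : Prop :=
  ∀ k ∈ S, ¬ PowerContinues E k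

/-- `F` is a number field and `E` is bad over `F`. -/
def BadAt (S : Set ℕ) (E : WeierstrassCurve K) (F : IntermediateField K (AlgebraicClosure K)) :
    Prop :=
  ∃ _ : NumberField F, Bad S (E.map (algebraMap K F))

theorem numberField_of_finite (F : IntermediateField K (AlgebraicClosure K))
    [FiniteDimensional K F] : NumberField F := NumberField.of_module_finite K F

/-- The compositum as an extension of `F`. -/
noncomputable abbrev comp (F M : IntermediateField K (AlgebraicClosure K)) :
    IntermediateField F (AlgebraicClosure K) :=
  IntermediateField.extendScalars (le_sup_left : F ≤ F ⊔ M)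

instance normal_comp (F M : IntermediateField K (AlgebraicClosure K)) [Normal K M] :
    Normal F (comp F M) := by
  have hclos : IsAlgClosure F (AlgebraicClosure K) :=
    ⟨inferInstance, Algebra.IsAlgebraic.tower_top (K := K) F⟩
  have hN : Normal F (AlgebraicClosure K) := IsAlgClosure.normal F (AlgebraicClosure K)
  rw [IntermediateField.normal_iff_forall_map_le']
  intro σ x hx
  obtain ⟨y, hy, rfl⟩ := hx
  have hle : F ⊔ M ≤ (F ⊔ M).comap (σ.restrictScalars K : AlgebraicClosure K →ₐ[K] AlgebraicClosure K) := by
    refine sup_le ?_ ?_
    · intro z hz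
      change σ z ∈ F ⊔ M
      have : σ z = z := σ.commutes ⟨z, hz⟩
      rw [this]
      exact (le_sup_left : F ≤ F ⊔ M) hz
    · intro z hz
      change σ z ∈ F ⊔ M
      have h1 := (IntermediateField.normal_iff_forall_map_le'.1 (inferInstance : Normal K M))
        (σ.restrictScalars K)
      exact (le_sup_right : M ≤ F ⊔ M) (h1 ⟨z, hz, rfl⟩)
  exact hle hy

end

end Pool.Agent.MP_0d9be2.H63
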