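import Pool.Agent.Lib.MP_0d9be2_nt.H63.Final0

/-!
# The tower theorem, final form
-/

set_option autoImplicit false

open scoped NumberField Pointwise
open IsDedekindDomain NumberField

namespace Pool.Agent.MP_0d9be2.H63

open Pool.Agent.MP_0d9be2.H36

/-- Second alternative: the non-semistable primes lie over one prime. -/
def Second_S : Prop :=
  ∀ (K : Type) [Field K] [NumberField K]
    (F : ℕ → IntermediateField K (AlgebraicClosure K)), Monotone F →
    ∀ (_ : ∀ n, NumberField (F n))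
    (Ki : IntermediateField K (AlgebraicClosure K)), Ki = ⨆ n, F n →
    ∀ v : AbsoluteValue (AlgebraicClosure K) ℝ, v.IsNontrivial →
    (∀ (σ : Gal(AlgebraicClosure K/Ki)) (x : AlgebraicClosure K), v (σ x) = v x) →
    (∀ w : AbsoluteValue (AlgebraicClosure K) ℝ, w.IsNontrivial → ¬ v.IsEquiv w →
      ∀ σ : Gal(AlgebraicClosure K/Ki), (∀ x, w (σ x) = w x) → σ = 1) →
    ∀ (E : WeierstrassCurve K) [E.IsElliptic] (m : ℕ),
    ∃ (u : HeightOneSpectrum (𝓞 (F m))) (n₀ : ℕ), ∀ n, n₀ ≤ n →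
      ∀ w : HeightOneSpectrum (𝓞 (F n)), ¬ H29.SemistableAt (E.map (algebraMap K (F n))) w →
        ∀ (y : 𝓞 (F n)) (x : 𝓞 (F m)), ((y : F n) : AlgebraicClosure K) = (x : F m) →
          (y ∈ w.asIdeal ↔ x ∈ u.asIdeal)

section

variable {K : Type} [Field K] [NumberField K]

theorem mem_inf_fixing (F : ℕ → IntermediateField K (AlgebraicClosure K))
    (σ : Gal(AlgebraicClosure K/K)) (hσ : ∀ n, σ ∈ (F n).fixingSubgroup) :
    σ ∈ (⨆ n, F n : IntermediateField K (AlgebraicClosure K)).fixingSubgroup := by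
  have h1 : (⨆ n, F n : IntermediateField K (AlgebraicClosure K)) ≤
      IntermediateField.fixedField (Subgroup.zpowers σ) := by
    refine iSup_le fun n x hx => ?_
    rw [IntermediateField.mem_fixedField_iff]
    intro ρ hρ
    have h2 : Subgroup.zpowers σ ≤ (F n).fixingSubgroup := by
      rw [Subgroup.zpowers_le]
      exact hσ n
    exact (IntermediateField.mem_fixingSubgroup_iff _ _).1 (h2 hρ) x hx
  rw [IntermediateField.mem_fixingSubgroup_iff]
  intro x hx
  have h2 := h1 hx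
  rw [IntermediateField.mem_fixedField_iff] at h2
  exact h2 σ (Subgroup.mem_zpowers σ)

/-- The tower theorem. -/
theorem final (hT : ShareTower_S) (hI : ShareIso_S) (hMono : ShareMono_S) (hSec : Second_S)
    {p : ℕ} (hp : p.Prime) (S : Set ℕ)
    (hSmul : ∀ a ∈ S, ∀ b ∈ S, a * b ∈ S) (hSp : ∀ k : ℕ, ¬ p ∣ k → k ∈ S)
    (E : WeierstrassCurve K) [E.IsElliptic] (hbad : ∀ k ∈ S, ¬ PowerContinues E k)
    (M₀ : IntermediateField K (AlgebraicClosure K)) [FiniteDimensional K M₀] [IsGalois K M₀] :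
    ∃ (F : ℕ → IntermediateField K (AlgebraicClosure K)) (_ : ∀ n, NumberField (F n)),
      Monotone F ∧
      (∀ n, ∀ k ∈ S, ¬ PowerContinues (E.map (algebraMap K (F n))) k) ∧
      (∀ n, IsPHyper p ((F n).fixingSubgroup.map
        (AlgEquiv.restrictNormalHom M₀ : Gal(AlgebraicClosure K/K) →* Gal(M₀/K)))) ∧
      (∀ (M : IntermediateField K (AlgebraicClosure K)) (_ : FiniteDimensional K M)
        (_ : IsGalois K M) (m : ℕ), ∃ n₀ : ℕ, ∀ n, n₀ ≤ n →
        IsPHyper p ((F n).fixingSubgroup.map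
          (AlgEquiv.restrictNormalHom M : Gal(AlgebraicClosure K/K) →* Gal(M/K))) ∧
        (∀ v : HeightOneSpectrum (𝓞 K), m * badDeg K M (F n) v ≤ Module.finrank K (F n)) ∧
        (∀ v : InfinitePlace K, m * badInf K M (F n) v ≤ Module.finrank K (F n))) ∧
      (((∀ v : AbsoluteValue (AlgebraicClosure K) ℝ, v.IsNontrivial →
            ∀ σ : Gal(AlgebraicClosure K/K), (∀ n, σ ∈ (F n).fixingSubgroup) →
              (∀ x, v (σ x) = v x) → ∀ x, ∃ j : ℕ, (σ ^ p ^ j) x = x) ∧
          (p ≠ 2 → ∃ n₀ : ℕ, ∀ n, n₀ ≤ n → ∀ w : InfinitePlace (F n), w.IsComplex) ∧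
          (5 ≤ p → ∃ n₀ : ℕ, ∀ n, n₀ ≤ n → ∀ w : HeightOneSpectrum (𝓞 (F n)),
            H29.SemistableAt (E.map (algebraMap K (F n))) w)) ∨
        ∃ v : AbsoluteValue (AlgebraicClosure K) ℝ, v.IsNontrivial ∧
          (∀ σ : Gal(AlgebraicClosure K/K), (∀ n, σ ∈ (F n).fixingSubgroup) →
            ∀ x, v (σ x) = v x) ∧
          (∀ w : AbsoluteValue (AlgebraicClosure K) ℝ, w.IsNontrivial → ¬ v.IsEquiv w →
            ∀ σ : Gal(AlgebraicClosure K/K), (∀ n, σ ∈ (F n).fixingSubgroup) →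
              (∀ x, w (σ x) = w x) → σ = 1) ∧
          ∀ m : ℕ, ∃ (u : HeightOneSpectrum (𝓞 (F m))) (n₀ : ℕ), ∀ n, n₀ ≤ n →
            ∀ w : HeightOneSpectrum (𝓞 (F n)),
              ¬ H29.SemistableAt (E.map (algebraMap K (F n))) w →
                ∀ (y : 𝓞 (F n)) (x : 𝓞 (F m)), ((y : F n) : AlgebraicClosure K) = (x : F m) →
                  (y ∈ w.asIdeal ↔ x ∈ u.asIdeal)) := by
  obtain ⟨F, nf, hmono, hb, hh0, hsh, hloc⟩ := grand H39.primes curves_S H7.minimal split_S hT hI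
    hMono hp S hSmul hSp E hbad M₀
  refine ⟨F, nf, hmono, hb, hh0, hsh, ?_⟩
  obtain ⟨_, hloc'⟩ := hloc _ rfl
  rcases hloc' with hall | ⟨v, hv, hfix, huniq⟩
  · left
    refine ⟨?_, ?_, ?_⟩
    · intro v hv σ hσ hσv x
      let σ' : Gal(AlgebraicClosure K/(⨆ n, F n : IntermediateField K (AlgebraicClosure K))) :=
        IntermediateField.fixingSubgroupEquiv _ ⟨σ, mem_inf_fixing F σ hσ⟩
      have hσ'x : ∀ x, σ' x = σ x := fun x => rfl
      obtain ⟨j, hj⟩ := hall v hv σ' hσv x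
      refine ⟨j, ?_⟩
      have h5 : ∀ (m : ℕ) (x : AlgebraicClosure K), (σ' ^ m) x = (σ ^ m) x := by
        intro m
        induction m with
        | zero => intro x; rfl
        | succ m ih =>
          intro x
          rw [pow_succ', pow_succ', AlgEquiv.mul_apply, AlgEquiv.mul_apply, ih, hσ'x]
      rw [← h5]
      exact hj
    · intro hp2
      exact d4 hp hp2 F hmono _ rfl hall
    · intro hp5
      exact H36.semistable_tower H7.bridge hp hp5 F hmono nf _ rfl hall E
  · right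
    refine ⟨v, hv, ?_, ?_, fun m => hSec K F hmono nf _ rfl v hv hfix huniq E m⟩
    · intro σ hσ x
      exact hfix (IntermediateField.fixingSubgroupEquiv _ ⟨σ, mem_inf_fixing F σ hσ⟩) x
    · intro w hw hne σ hσ hσw
      have h1 := huniq w hw hne
        (IntermediateField.fixingSubgroupEquiv _ ⟨σ, mem_inf_fixing F σ hσ⟩) hσw
      ext x
      exact congrArg (fun g : Gal(AlgebraicClosure K/(⨆ n, F n :
        IntermediateField K (AlgebraicClosure K))) => g x) h1

end

end Pool.Agent.MP_0d9be2.H63
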