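import Pool.Agent.Lib.MP_0d9be2_nt.H63.Grand
import Pool.Agent.Lib.MP_0d9be2_nt.H63.D4
import Pool.Agent.Lib.MP_0d9be2_nt.H36.Large
import Pool.Agent.Lib.MP_0d9be2_nt.H7.BridgeS
import Pool.Agent.Lib.MP_0d9be2_nt.H7.Inert
import Pool.Agent.Lib.MP_0d9be2_nt.H7.Curves
import Pool.Agent.Lib.MP_0d9be2_nt.H7.Model
import Pool.Agent.Lib.MP_0d9be2_nt.H15.Count
import Pool.Agent.Lib.MP_0d9be2_nt.H15.CountInf
import Pool.Agent.Lib.MP_0d9be2_nt.H29.Field
import Pool.Agent.Lib.MP_0d9be2_nt.H29.Split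
import Pool.Agent.Lib.MP_0d9be2_nt.H29.ChangeS
import Pool.Agent.Lib.MP_0d9be2_nt.H36.Same
import Pool.Agent.Lib.MP_0d9be2_nt.H39.Elements
import Pool.Agent.Lib.MP_0d9be2_nt.H39.PrimesNF

/-!
# The pieces
-/

set_option autoImplicit false

namespace Pool.Agent.MP_0d9be2.H63

theorem split_S : Split_S := H29.split (H29.field H39.elements H7.inert) H15.count H15.countInf

theorem curves_S : Curves_S := H7.curves H29.change H36.same

end Pool.Agent.MP_0d9be2.H63
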