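import Pool.Agent.Lib.MP_0d9be2_nt.H63.Step
import Pool.Agent.Lib.MP_0d9be2_nt.H15.Powers

/-!
# The tower theorem
-/

set_option autoImplicit false

open scoped NumberField Pointwise
open IsDedekindDomain NumberField

namespace Pool.Agent.MP_0d9be2.H63

open Pool.Agent.MP_0d9be2.H36

section

variable {K : Type} [Field K] [NumberField K]

theorem badAt_bot {S : Set ℕ} {E : WeierstrassCurve K} (h : Bad S E) :
    BadAt S E (⊥ : IntermediateField K (AlgebraicClosure K)) := by
  have nf : NumberField (⊥ : IntermediateField K (AlgebraicClosure K)) :=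
    NumberField.of_module_finite K _
  refine ⟨nf, fun k hk hcont => h k hk ?_⟩
  let e : (⊥ : IntermediateField K (AlgebraicClosure K)) ≃ₐ[K] K :=
    IntermediateField.botEquiv K (AlgebraicClosure K)
  have h1 := powerContinues_map e.toRingEquiv _ k hcont
  have h2 : (E.map (algebraMap K (⊥ : IntermediateField K (AlgebraicClosure K)))).map
      e.toRingEquiv.toRingHom = E := by
    rw [WeierstrassCurve.map_map]
    have : e.toRingEquiv.toRingHom.comp
        (algebraMap K (⊥ : IntermediateField K (AlgebraicClosure K))) = RingHom.id K := by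
      ext x
      exact e.commutes x
    rw [this, WeierstrassCurve.map_id]
  rwa [h2] at h1

theorem exists_bad {E : WeierstrassCurve K} (hE : ¬ Continues E) :
    ∃ p : ℕ, p.Prime ∧ ∀ k : ℕ, ¬ p ∣ k → ¬ PowerContinues E k := by
  by_contra hcon
  push Not at hcon
  apply hE
  apply H15.continues_of_powers
  intro p hp
  obtain ⟨k, hk, hkc⟩ := hcon p hp
  exact ⟨k, (Nat.Prime.coprime_iff_not_dvd hp).2 hk, hkc⟩

theorem le_of_exhaust (M : ℕ → IntermediateField K (AlgebraicClosure K)) (hmono : Monotone M)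
    (hex : ∀ x, ∃ n, x ∈ M n) (L : IntermediateField K (AlgebraicClosure K))
    [FiniteDimensional K L] : ∃ n₀, ∀ n, n₀ ≤ n → L ≤ M n := by
  obtain ⟨θ, hθ⟩ := Field.exists_primitive_element K L
  obtain ⟨n₀, hn₀⟩ := hex (L.val θ)
  refine ⟨n₀, fun n hn x hx => ?_⟩
  have h1 : (⟨x, hx⟩ : L) ∈ IntermediateField.adjoin K {θ} := by
    rw [hθ]
    trivial
  have h2 : IntermediateField.adjoin K {θ} ≤ (M n).comap L.val := by
    rw [IntermediateField.adjoin_le_iff]
    rintro _ rfl
    exact hmono hn hn₀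
  exact h2 h1

theorem hyper_mono {p : ℕ} (hp : p.Prime) (F F' M M' : IntermediateField K (AlgebraicClosure K))
    [Normal K M] [Normal K M'] (hM : M ≤ M') (hF : F ≤ F')
    (h : IsPHyper p (F.fixingSubgroup.map
      (AlgEquiv.restrictNormalHom M' : Gal(AlgebraicClosure K/K) →* Gal(M'/K)))) :
    IsPHyper p (F'.fixingSubgroup.map
      (AlgEquiv.restrictNormalHom M : Gal(AlgebraicClosure K/K) →* Gal(M/K))) := by
  refine IsPHyper.of_ker_le hp
    (((AlgEquiv.restrictNormalHom M' : Gal(AlgebraicClosure K/K) →* Gal(M'/K))).comp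
      F'.fixingSubgroup.subtype)
    ((AlgEquiv.restrictNormalHom M : Gal(AlgebraicClosure K/K) →* Gal(M/K)).subgroupMap
      F'.fixingSubgroup) (MonoidHom.subgroupMap_surjective _ _) ?_ ?_
  · intro σ hσ
    rw [MonoidHom.mem_ker] at hσ ⊢
    apply Subtype.ext
    change AlgEquiv.restrictNormalHom M σ.1 = 1
    ext y
    rw [AlgEquiv.restrictNormalHom_apply]
    have h1 := AlgEquiv.restrictNormalHom_apply M' σ.1 ⟨y, hM y.2⟩
    have h2 : AlgEquiv.restrictNormalHom M' σ.1 = 1 := hσ
    rw [h2] at h1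
    exact h1.symm
  · refine IsPHyper.of_le hp ?_ h
    rintro _ ⟨σ, rfl⟩
    exact ⟨σ.1, IntermediateField.fixingSubgroup_le hF σ.2, rfl⟩

/-- The tower theorem. -/
theorem grand (hP : Primes_S) (hC : Curves_S) (hMin : Minimal_S) (hSplit : Split_S)
    (hT : ShareTower_S) (hI : ShareIso_S) (hMono : ShareMono_S) {p : ℕ} (hp : p.Prime) (S : Set ℕ)
    (hSmul : ∀ a ∈ S, ∀ b ∈ S, a * b ∈ S) (hSp : ∀ k : ℕ, ¬ p ∣ k → k ∈ S)
    (E : WeierstrassCurve K) [E.IsElliptic] (hbad : ∀ k ∈ S, ¬ PowerContinues E k)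
    (M₀ : IntermediateField K (AlgebraicClosure K)) [FiniteDimensional K M₀] [IsGalois K M₀] :
    ∃ (F : ℕ → IntermediateField K (AlgebraicClosure K)) (_ : ∀ n, NumberField (F n)),
      Monotone F ∧
      (∀ n, ∀ k ∈ S, ¬ PowerContinues (E.map (algebraMap K (F n))) k) ∧
      (∀ n, IsPHyper p ((F n).fixingSubgroup.map
        (AlgEquiv.restrictNormalHom M₀ : Gal(AlgebraicClosure K/K) →* Gal(M₀/K)))) ∧
      (∀ (M : IntermediateField K (AlgebraicClosure K)) (_ : FiniteDimensional K M)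
        (_ : IsGalois K M) (m : ℕ), ∃ n₀ : ℕ, ∀ n, n₀ ≤ n →
        IsPHyper p ((F n).fixingSubgroup.map
          (AlgEquiv.restrictNormalHom M : Gal(AlgebraicClosure K/K) →* Gal(M/K))) ∧
        (∀ v : HeightOneSpectrum (𝓞 K), m * badDeg K M (F n) v ≤ Module.finrank K (F n)) ∧
        (∀ v : InfinitePlace K, m * badInf K M (F n) v ≤ Module.finrank K (F n))) ∧
      (∀ (Ki : IntermediateField K (AlgebraicClosure K)), Ki = ⨆ n, F n →
        (∀ (L : IntermediateField Ki (AlgebraicClosure K)), FiniteDimensional Ki L →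
          IsGalois Ki L → IsPHyper p (L ≃ₐ[Ki] L)) ∧
        ((∀ v : AbsoluteValue (AlgebraicClosure K) ℝ, v.IsNontrivial →
          ∀ σ : Gal(AlgebraicClosure K/Ki), (∀ x, v (σ x) = v x) →
            ∀ x, ∃ j : ℕ, (σ ^ p ^ j) x = x) ∨
        ∃ v : AbsoluteValue (AlgebraicClosure K) ℝ, v.IsNontrivial ∧
          (∀ (σ : Gal(AlgebraicClosure K/Ki)) (x : AlgebraicClosure K), v (σ x) = v x) ∧
          ∀ w : AbsoluteValue (AlgebraicClosure K) ℝ, w.IsNontrivial → ¬ v.IsEquiv w →
            ∀ σ : Gal(AlgebraicClosure K/Ki), (∀ x, w (σ x) = w x) → σ = 1)) := by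
  obtain ⟨M, hM0, hMmono, hMfin, hMgal, hMex⟩ := exists_exhaustion K M₀
  have := hMfin
  have := hMgal
  obtain ⟨G, hG0, hGmono, hGbad, hGR⟩ := exists_tower (K := K) (BadAt S E)
    (fun n _ F' => IsPHyper p (F'.fixingSubgroup.map
        (AlgEquiv.restrictNormalHom (M n) : Gal(AlgebraicClosure K/K) →* Gal(M n/K))) ∧
      ∀ _ : NumberField F',
        (∀ v : HeightOneSpectrum (𝓞 K), n * badDeg K (M n) F' v ≤ Module.finrank K F') ∧
        (∀ v : InfinitePlace K, n * badInf K (M n) F' v ≤ Module.finrank K F'))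
    (fun n F hF => step hP hC hMin hSplit hT hI hp S hSmul hSp E F (M n) hF n) ⊥ (badAt_bot hbad)
  have nf : ∀ n, NumberField (G n) := fun n => (hGbad n).choose
  refine ⟨fun n => G (n + 1), fun n => nf (n + 1), ?_, ?_, ?_, ?_, ?_⟩
  · intro a b hab
    exact hGmono (Nat.succ_le_succ hab)
  · intro n k hk hcont
    obtain ⟨nf', hb⟩ := hGbad (n + 1)
    exact hb k hk hcont
  · intro n
    have h1 := (hGR 0).1
    exact hyper_mono hp (G (0 + 1)) (G (n + 1)) M₀ (M 0) (by rw [hM0])
      (hGmono (Nat.succ_le_succ (Nat.zero_le n))) h1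
  · intro L hL hLG m
    obtain ⟨n₁, hn₁⟩ := le_of_exhaust M hMmono hMex L
    refine ⟨max n₁ m, fun n hn => ?_⟩
    have hLM : L ≤ M n := hn₁ n ((le_max_left _ _).trans hn)
    have hmn : m ≤ n := (le_max_right _ _).trans hn
    obtain ⟨h1, h2⟩ := hGR n
    obtain ⟨h3, h4⟩ := h2 (nf (n + 1))
    have nfL : NumberField L := NumberField.of_module_finite K L
    have nfM : NumberField (M n) := NumberField.of_module_finite K (M n)
    have nfG := nf (n + 1)
    let _ : Algebra L (M n) := (IntermediateField.inclusion hLM).toRingHom.toAlgebra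
    have tow : IsScalarTower K L (M n) := IsScalarTower.of_algebraMap_eq fun x => rfl
    obtain ⟨h5, h6⟩ := hMono K L (M n) (G (n + 1))
    refine ⟨hyper_mono hp _ _ L (M n) hLM le_rfl h1, fun v => ?_, fun v => ?_⟩
    · exact (Nat.mul_le_mul hmn (h5 v)).trans (h3 v)
    · exact (Nat.mul_le_mul hmn (h6 v)).trans (h4 v)
  · intro Ki hKi
    have hle : ∀ n, G n ≤ Ki := by
      intro n
      rw [hKi]
      exact (hGmono (Nat.le_succ n)).trans (le_iSup (fun n => G (n + 1)) n)
    have hyp : ∀ (L : IntermediateField Ki (AlgebraicClosure K)), FiniteDimensional Ki L →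
        IsGalois Ki L → IsPHyper p (L ≃ₐ[Ki] L) := by
      intro L hL hLG
      exact hyper_inf hp G M hMmono hMex (fun n => (hGR n).1) Ki hle L
    refine ⟨hyp, ?_⟩
    have halg : Algebra.IsAlgebraic Ki (AlgebraicClosure K) :=
      Algebra.IsAlgebraic.tower_top (K := K) Ki
    exact local_or_pro (k := Ki) (Ω := AlgebraicClosure K) hp hyp

end

end Pool.Agent.MP_0d9be2.H63
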