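import Pool.Agent.Lib.MP_0d9be2_nt.H63.Schmidt
import Pool.Agent.Lib.MP_0d9be2_nt.H36.SolomonP

/-!
# Pro-`p`-hyperelementary Galois groups: local or with pro-`p` decomposition groups

`k` is a field of characteristic zero such that every finite Galois extension of `k` has a
`p`-hyperelementary Galois group. Then either all decomposition groups of `Ω/k` are pro-`p`
groups, or there is an absolute value of `Ω` which is fixed by `Gal(Ω/k)`, and then all other
decomposition groups are trivial.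
-/

set_option autoImplicit false

open Filter

namespace Pool.Agent.MP_0d9be2.H63

open Pool.Agent.MP_0d9be2.H36

theorem IsPHyper.of_surjective {p : ℕ} (hp : p.Prime) {H K : Type*} [Group H] [Group K]
    (f : H →* K) (hf : Function.Surjective f) (hH : IsPHyper p H) : IsPHyper p K := by
  obtain ⟨C, hCn, hcyc, hdvd, k, hk⟩ := hH
  refine ⟨C.map f, hCn.map f hf, ?_, ?_, ?_⟩
  · exact isCyclic_of_surjective (f.subgroupMap C) (f.subgroupMap_surjective C)
  · intro h
    exact hdvd (h.trans (Subgroup.card_map_dvd C f))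
  · have h1 : (C.map f).index ∣ C.index := Subgroup.index_map_dvd C hf
    rw [hk] at h1
    obtain ⟨j, _, hj⟩ := (Nat.dvd_prime_pow hp).1 h1
    exact ⟨j, hj⟩

/-- In a `p`-hyperelementary group every conjugate of an element of order prime to `p` is a power
of the element. -/
theorem IsPHyper.conj {p : ℕ} (hp : p.Prime) {G : Type*} [Group G] (hG : IsPHyper p G) (c : G)
    (s : ℕ) (hs : ¬ p ∣ s) (hc : c ^ s = 1) (g : G) : ∃ t : ℤ, g * c * g⁻¹ = c ^ t := by
  obtain ⟨C, hCn, hcyc, hdvd, k, hk⟩ := hG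
  have h1 : c ^ (p ^ k) ∈ C := by
    rw [← hk]
    exact Subgroup.pow_index_mem C c
  have hcop : Nat.Coprime s (p ^ k) := by
    apply Nat.Coprime.pow_right
    exact (Nat.Coprime.symm ((Nat.Prime.coprime_iff_not_dvd hp).2 hs))
  have h2 : c ∈ C := by
    have h3 : c = (c ^ s) ^ (Nat.gcdA s (p ^ k)) * (c ^ (p ^ k)) ^ (Nat.gcdB s (p ^ k)) := by
      rw [← zpow_natCast, ← zpow_natCast, ← zpow_mul, ← zpow_mul, ← zpow_add,
        ← Nat.gcd_eq_gcd_ab, hcop]
      simp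
    rw [h3, hc, one_zpow, one_mul]
    exact C.zpow_mem h1 _
  obtain ⟨γ, hγ⟩ := hcyc.exists_generator
  obtain ⟨u, hu⟩ := Subgroup.mem_zpowers_iff.1 (hγ ⟨c, h2⟩)
  have hu' : (γ : G) ^ u = c := by
    have := congrArg (Subtype.val) hu
    simpa using this
  have h4 : g * (γ : G) * g⁻¹ ∈ C := hCn.conj_mem _ γ.2 g
  obtain ⟨t, ht⟩ := Subgroup.mem_zpowers_iff.1 (hγ ⟨_, h4⟩)
  have ht' : (γ : G) ^ t = g * (γ : G) * g⁻¹ := by
    have := congrArg (Subtype.val) ht
    simpa using this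
  refine ⟨t, ?_⟩
  rw [← hu', ← conj_zpow, ← ht', ← zpow_mul, ← zpow_mul, mul_comm]

/-! ### The sequence `p ^ j!` modulo `r` -/

theorem pow_factorial {p : ℕ} (hp : p.Prime) (r : ℕ) (hr : 0 < r) :
    ∃ (s N : ℕ), ¬ p ∣ s ∧ (∀ j, N ≤ j → r ∣ p ^ j.factorial * s) ∧
      ∀ j, N ≤ j → p ^ j.factorial ≡ p ^ N.factorial [MOD r] := by
  obtain ⟨a, s, hs, hrs⟩ := Nat.exists_eq_pow_mul_and_not_dvd hr.ne' p hp.ne_one
  have hs0 : 0 < s := by
    rcases Nat.eq_zero_or_pos s with h | h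
    · rw [h] at hs
      exact (hs (dvd_zero p)).elim
    · exact h
  have hcop : Nat.Coprime p s := (Nat.Prime.coprime_iff_not_dvd hp).2 hs
  set N := max a s.totient with hN
  have h1 : ∀ j, N ≤ j → p ^ a ∣ p ^ j.factorial := by
    intro j hj
    exact pow_dvd_pow p (((le_max_left _ _).trans hj).trans (Nat.self_le_factorial j))
  have h2 : ∀ j, N ≤ j → p ^ j.factorial ≡ 1 [MOD s] := by
    intro j hj
    have h3 : s.totient ∣ j.factorial :=
      Nat.dvd_factorial (Nat.totient_pos.2 hs0) ((le_max_right _ _).trans hj)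
    obtain ⟨m, hm⟩ := h3
    rw [hm, pow_mul]
    have h4 := (Nat.ModEq.pow_totient hcop).pow m
    rwa [one_pow] at h4
  refine ⟨s, N, hs, fun j hj => ?_, fun j hj => ?_⟩
  · rw [hrs]
    exact Nat.mul_dvd_mul_right (h1 j hj) s
  · rw [hrs]
    refine (Nat.modEq_and_modEq_iff_modEq_mul (Nat.Coprime.pow_left a hcop)).1 ⟨?_, ?_⟩
    · exact ((Nat.modEq_zero_iff_dvd).2 (h1 j hj)).trans
        ((Nat.modEq_zero_iff_dvd).2 (h1 N le_rfl)).symm
    · exact (h2 j hj).trans (h2 N le_rfl).symm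

section field

variable {k Ω : Type*} [Field k] [Field Ω] [Algebra k Ω] [Algebra.IsAlgebraic k Ω]
  [IsAlgClosed Ω] [CharZero k]

omit [IsAlgClosed Ω] in
theorem exists_galois [IsAlgClosed Ω] (x : Ω) : ∃ L : IntermediateField k Ω, x ∈ L ∧
    FiniteDimensional k L ∧ IsGalois k L := by
  have hint : IsIntegral k x := (Algebra.IsAlgebraic.isAlgebraic x).isIntegral
  have : FiniteDimensional k (IntermediateField.adjoin k {x}) :=
    IntermediateField.adjoin.finiteDimensional hint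
  have : IsAlgClosure k Ω := ⟨inferInstance, inferInstance⟩
  have : Normal k Ω := IsAlgClosure.normal k Ω
  refine ⟨IntermediateField.normalClosure k (IntermediateField.adjoin k {x}) Ω, ?_, inferInstance, ?_⟩
  · have h1 := (IntermediateField.le_normalClosure (IntermediateField.adjoin k {x} : IntermediateField k Ω))
    exact h1 (IntermediateField.mem_adjoin_simple_self k x)
  · exact { }

omit [Algebra.IsAlgebraic k Ω] [IsAlgClosed Ω] [CharZero k] in
theorem pow_mod (τ : Ω ≃ₐ[k] Ω) (x : Ω) (r : ℕ) (h : (τ ^ r) x = x) (m n : ℕ)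
    (hmn : m ≡ n [MOD r]) : (τ ^ m) x = (τ ^ n) x := by
  have h1 : ∀ q : ℕ, (τ ^ (r * q)) x = x := by
    intro q
    induction q with
    | zero => simp
    | succ q ih =>
      rw [Nat.mul_succ, pow_add, AlgEquiv.mul_apply, h, ih]
  have h2 : ∀ m : ℕ, (τ ^ m) x = (τ ^ (m % r)) x := by
    intro m
    conv_lhs => rw [← Nat.mod_add_div m r, pow_add, AlgEquiv.mul_apply, h1]
  rw [h2 m, h2 n]
  have : m % r = n % r := hmn
  rw [this]

theorem finite_orbit (τ : Ω ≃ₐ[k] Ω) (x : Ω) : ∃ r : ℕ, 0 < r ∧ (τ ^ r) x = x := by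
  obtain ⟨L, hxL, hfin, hgal⟩ := exists_galois (k := k) x
  have := hfin
  have := hgal
  refine ⟨Nat.card (L ≃ₐ[k] L), Nat.card_pos, ?_⟩
  have h1 : (AlgEquiv.restrictNormalHom L τ) ^ (Nat.card (L ≃ₐ[k] L)) = 1 := pow_card_eq_one'
  rw [← map_pow] at h1
  have h2 := AlgEquiv.restrictNormalHom_apply L (τ ^ (Nat.card (L ≃ₐ[k] L))) ⟨x, hxL⟩
  rw [h1] at h2
  exact h2.symm

/-- The prime-to-`p` part of an automorphism. -/
theorem exists_part {p : ℕ} (hp : p.Prime) (τ : Ω ≃ₐ[k] Ω) :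
    ∃ c : Ω ≃ₐ[k] Ω, ∀ x : Ω, ∀ᶠ j : ℕ in atTop, (τ ^ (p ^ j.factorial)) x = c x := by
  have h1 : ∀ x : Ω, ∃ N : ℕ, ∀ j, N ≤ j →
      (τ ^ (p ^ j.factorial)) x = (τ ^ (p ^ N.factorial)) x := by
    intro x
    obtain ⟨r, hr, hrx⟩ := finite_orbit τ x
    obtain ⟨s, N, _, _, hN⟩ := pow_factorial hp r hr
    exact ⟨N, fun j hj => pow_mod τ x r hrx _ _ (hN j hj)⟩
  choose N hN using h1
  let c₀ : Ω → Ω := fun x => (τ ^ (p ^ (N x).factorial)) x
  have hc₀ : ∀ x : Ω, ∀ᶠ j : ℕ in atTop, (τ ^ (p ^ j.factorial)) x = c₀ x := by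
    intro x
    filter_upwards [eventually_ge_atTop (N x)] with j hj
    exact hN x j hj
  let c₁ : Ω →ₐ[k] Ω :=
    { toFun := c₀
      map_one' := by
        obtain ⟨j, hj⟩ := (hc₀ 1).exists
        rw [← hj, map_one]
      map_zero' := by
        obtain ⟨j, hj⟩ := (hc₀ 0).exists
        rw [← hj, map_zero]
      map_mul' := by
        intro x y
        obtain ⟨j, hj1, hj2, hj3⟩ := ((hc₀ x).and ((hc₀ y).and (hc₀ (x * y)))).exists
        rw [← hj1, ← hj2, ← hj3, map_mul]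
      map_add' := by
        intro x y
        obtain ⟨j, hj1, hj2, hj3⟩ := ((hc₀ x).and ((hc₀ y).and (hc₀ (x + y)))).exists
        rw [← hj1, ← hj2, ← hj3, map_add]
      commutes' := by
        intro a
        obtain ⟨j, hj⟩ := (hc₀ (algebraMap k Ω a)).exists
        rw [← hj, AlgEquiv.commutes] }
  exact ⟨AlgEquiv.ofBijective c₁ (Algebra.IsAlgebraic.algHom_bijective c₁), hc₀⟩

omit [IsAlgClosed Ω] [Algebra.IsAlgebraic k Ω] [CharZero k] in
theorem v_pow (τ : Ω ≃ₐ[k] Ω) (v : AbsoluteValue Ω ℝ) (h : ∀ x, v (τ x) = v x) (m : ℕ) (x : Ω) :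
    v ((τ ^ m) x) = v x := by
  induction m with
  | zero => simp
  | succ m ih => rw [pow_succ', AlgEquiv.mul_apply, h, ih]

omit [IsAlgClosed Ω] [Algebra.IsAlgebraic k Ω] [CharZero k] in
theorem v_inv (τ : Ω ≃ₐ[k] Ω) (v : AbsoluteValue Ω ℝ) (h : ∀ x, v (τ x) = v x) (x : Ω) :
    v (τ⁻¹ x) = v x := by
  have h1 := h (τ⁻¹ x)
  rw [← AlgEquiv.mul_apply, mul_inv_cancel, AlgEquiv.one_apply] at h1
  exact h1.symm

omit [IsAlgClosed Ω] [Algebra.IsAlgebraic k Ω] [CharZero k] in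
theorem v_zpow (τ : Ω ≃ₐ[k] Ω) (v : AbsoluteValue Ω ℝ) (h : ∀ x, v (τ x) = v x) (m : ℤ) (x : Ω) :
    v ((τ ^ m) x) = v x := by
  obtain ⟨n, rfl | rfl⟩ := m.eq_nat_or_neg
  · rw [zpow_natCast]
    exact v_pow τ v h n x
  · rw [zpow_neg, zpow_natCast]
    exact v_inv _ v (fun y => v_pow τ v h n y) x

theorem schmidt' (c : Ω ≃ₐ[k] Ω) (v w : AbsoluteValue Ω ℝ) (hv : v.IsNontrivial)
    (hw : w.IsNontrivial) (hne : ¬ v.IsEquiv w) (hcv : ∀ x, v (c x) = v x)
    (hcw : ∀ x, w (c x) = w x) : c = 1 := by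
  have : CharZero Ω := charZero_of_injective_algebraMap (algebraMap k Ω).injective
  have hpow : ∀ (r : ℕ) (x : Ω), ((c : Ω ≃+* Ω) ^ r) x = (c ^ r) x := by
    intro r
    induction r with
    | zero => intro x; simp
    | succ r ih =>
      intro x
      rw [pow_succ', pow_succ', AlgEquiv.mul_apply]
      change (c : Ω ≃+* Ω) (((c : Ω ≃+* Ω) ^ r) x) = _
      rw [ih]
      rfl
  ext x
  refine schmidt (c : Ω ≃+* Ω) (fun y => ?_) v w hv hw hne hcv hcw x
  obtain ⟨r, hr, hrx⟩ := finite_orbit c y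
  exact ⟨r, hr, by rw [hpow, hrx]⟩

/-- An automorphism which preserves the equivalence class preserves the absolute value. -/
theorem eq_of_isEquiv (g : Ω ≃ₐ[k] Ω) (v : AbsoluteValue Ω ℝ)
    (h : ∀ x y, v x < v y ↔ v (g x) < v (g y)) (x : Ω) : v (g x) = v x := by
  obtain ⟨r, hr, hrx⟩ := finite_orbit g x
  by_contra hne
  rcases lt_or_gt_of_ne hne with h1 | h1
  · have h2 : ∀ n : ℕ, v ((g ^ (n + 1)) x) < v ((g ^ n) x) := by
      intro n
      induction n with
      | zero => simpa using h1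
      | succ n ih =>
        have h3 : ∀ m : ℕ, (g ^ (m + 1)) x = g ((g ^ m) x) := fun m => by
          rw [pow_succ', AlgEquiv.mul_apply]
        have h4 := (h _ _).1 ih
        rwa [← h3, ← h3] at h4
    have h3 : StrictAnti fun n : ℕ => v ((g ^ n) x) := strictAnti_nat_of_succ_lt h2
    have h4 := h3 hr
    simp only [hrx, pow_zero, AlgEquiv.one_apply, lt_self_iff_false] at h4
  · have h2 : ∀ n : ℕ, v ((g ^ n) x) < v ((g ^ (n + 1)) x) := by
      intro n
      induction n with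
      | zero => simpa using h1
      | succ n ih =>
        have h3 : ∀ m : ℕ, (g ^ (m + 1)) x = g ((g ^ m) x) := fun m => by
          rw [pow_succ', AlgEquiv.mul_apply]
        have h4 := (h _ _).1 ih
        rwa [← h3, ← h3] at h4
    have h3 : StrictMono fun n : ℕ => v ((g ^ n) x) := strictMono_nat_of_lt_succ h2
    have h4 := h3 hr
    simp only [hrx, pow_zero, AlgEquiv.one_apply, lt_self_iff_false] at h4

/-- The main theorem of this file. -/
theorem local_or_pro {p : ℕ} (hp : p.Prime)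
    (hyper : ∀ L : IntermediateField k Ω, FiniteDimensional k L → IsGalois k L →
      IsPHyper p (L ≃ₐ[k] L)) :
    (∀ v : AbsoluteValue Ω ℝ, v.IsNontrivial → ∀ σ : Ω ≃ₐ[k] Ω, (∀ x, v (σ x) = v x) →
      ∀ x, ∃ j : ℕ, (σ ^ p ^ j) x = x) ∨
    ∃ v : AbsoluteValue Ω ℝ, v.IsNontrivial ∧ (∀ (σ : Ω ≃ₐ[k] Ω) (x : Ω), v (σ x) = v x) ∧
      ∀ w : AbsoluteValue Ω ℝ, w.IsNontrivial → ¬ v.IsEquiv w → ∀ σ : Ω ≃ₐ[k] Ω,
        (∀ x, w (σ x) = w x) → σ = 1 := by
  by_cases hcase : ∀ v : AbsoluteValue Ω ℝ, v.IsNontrivial → ∀ σ : Ω ≃ₐ[k] Ω,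
      (∀ x, v (σ x) = v x) → ∀ x, ∃ j : ℕ, (σ ^ p ^ j) x = x
  · exact Or.inl hcase
  right
  push Not at hcase
  obtain ⟨v, hv, τ, hτ, x₀, hx₀⟩ := hcase
  obtain ⟨c, hc⟩ := exists_part hp τ
  have hcx₀ : c ≠ 1 := by
    intro h
    obtain ⟨j, hj⟩ := (hc x₀).exists
    apply hx₀ j.factorial
    rw [hj, h]
    rfl
  have hcv : ∀ x, v (c x) = v x := by
    intro x
    obtain ⟨j, hj⟩ := (hc x).exists
    rw [← hj]
    exact v_pow τ v hτ _ x
  -- conjugates of `c` are locally powers of `c`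
  have hconj : ∀ (g : Ω ≃ₐ[k] Ω) (x : Ω), ∃ t : ℤ, (g * c * g⁻¹) x = (c ^ t) x := by
    intro g x
    obtain ⟨L, hxL, hfin, hgal⟩ := exists_galois (k := k) x
    have := hfin
    have := hgal
    obtain ⟨s, N, hs, hdvd, hmod⟩ := pow_factorial hp (Nat.card (L ≃ₐ[k] L)) Nat.card_pos
    have hcL : AlgEquiv.restrictNormalHom L c =
        (AlgEquiv.restrictNormalHom L τ) ^ (p ^ N.factorial) := by
      ext y
      obtain ⟨j, hj1, hj2⟩ := ((hc (y : Ω)).and (eventually_ge_atTop N)).exists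
      rw [AlgEquiv.restrictNormalHom_apply L c y, ← hj1, ← map_pow,
        AlgEquiv.restrictNormalHom_apply]
      have h1 : (AlgEquiv.restrictNormalHom L τ) ^ (p ^ j.factorial) =
          (AlgEquiv.restrictNormalHom L τ) ^ (p ^ N.factorial) := by
        rw [← pow_mod_natCard, hmod j hj2, pow_mod_natCard]
      rw [← map_pow, ← map_pow] at h1
      rw [← AlgEquiv.restrictNormalHom_apply L (τ ^ p ^ j.factorial) y, h1,
        AlgEquiv.restrictNormalHom_apply]
    have hcs : (AlgEquiv.restrictNormalHom L c) ^ s = 1 := by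
      rw [hcL, ← pow_mul]
      obtain ⟨q, hq⟩ := hdvd N le_rfl
      rw [hq, pow_mul, pow_card_eq_one', one_pow]
    obtain ⟨t, ht⟩ := IsPHyper.conj hp (hyper L hfin hgal) _ s hs hcs
      (AlgEquiv.restrictNormalHom L g)
    refine ⟨t, ?_⟩
    rw [← map_mul, ← map_inv, ← map_mul, ← map_zpow] at ht
    rw [← AlgEquiv.restrictNormalHom_apply L (g * c * g⁻¹) ⟨x, hxL⟩, ht,
      AlgEquiv.restrictNormalHom_apply]
  have hall : ∀ (g : Ω ≃ₐ[k] Ω) (x : Ω), v (g x) = v x := by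
    intro g
    suffices hsuff : ∀ x, v (g⁻¹ x) = v x by
      intro x
      have := hsuff (g x)
      rw [← AlgEquiv.mul_apply, inv_mul_cancel, AlgEquiv.one_apply] at this
      exact this.symm
    set c' : Ω ≃ₐ[k] Ω := g * c * g⁻¹ with hc'
    set w : AbsoluteValue Ω ℝ := v.comp (f := (g⁻¹ : Ω ≃ₐ[k] Ω).toRingEquiv.toRingHom)
      (g⁻¹ : Ω ≃ₐ[k] Ω).injective with hw
    have hwx : ∀ x, w x = v (g⁻¹ x) := fun x => rfl
    have hwn : w.IsNontrivial := by
      obtain ⟨x, hx0, hx1⟩ := hv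
      refine ⟨g x, ?_, ?_⟩
      · intro h
        apply hx0
        rwa [map_eq_zero] at h
      · rw [hwx, ← AlgEquiv.mul_apply, inv_mul_cancel, AlgEquiv.one_apply]
        exact hx1
    have hc'v : ∀ x, v (c' x) = v x := by
      intro x
      obtain ⟨t, ht⟩ := hconj g x
      rw [hc', ht]
      exact v_zpow c v hcv t x
    have hc'w : ∀ x, w (c' x) = w x := by
      intro x
      rw [hwx, hwx, hc', ← AlgEquiv.mul_apply]
      have : g⁻¹ * (g * c * g⁻¹) = c * g⁻¹ := by group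
      rw [this, AlgEquiv.mul_apply, hcv]
    have hequiv : v.IsEquiv w := by
      by_contra hne
      have h1 : c' = 1 := schmidt' c' v w hv hwn hne hc'v hc'w
      apply hcx₀
      have h2 : c = g⁻¹ * c' * g := by rw [hc']; group
      rw [h2, h1]
      group
    refine eq_of_isEquiv (g⁻¹) v fun x y => ?_
    have := hequiv.lt_iff_lt (x := x) (y := y)
    rw [hwx, hwx] at this
    exact this
  refine ⟨v, hv, hall, fun w hw hne σ hσ => schmidt' σ v w hv hw hne (hall σ) hσ⟩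

end field

end Pool.Agent.MP_0d9be2.H63
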