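import Mathlib

/-!
# F. K. Schmidt's theorem for automorphisms of an algebraically closed field

An automorphism of an algebraically closed field of characteristic zero, all of whose orbits are
finite, which preserves two inequivalent nontrivial absolute values is the identity.
-/

set_option autoImplicit false

open Polynomial

namespace Pool.Agent.MP_0d9be2.H63

section prelim

variable {Ω : Type*} [Field Ω]

/-- The product over the orbit. -/
noncomputable def orbProd (σ : Ω ≃+* Ω) (a : Ω) (r : ℕ) : Ω := ∏ i ∈ Finset.range r, (σ ^ i) a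

theorem orbProd_fixed (σ : Ω ≃+* Ω) (a : Ω) (r : ℕ) (h : (σ ^ r) a = a) :
    σ (orbProd σ a r) = orbProd σ a r := by
  unfold orbProd
  rw [map_prod]
  have h1 : ∀ i, σ ((σ ^ i) a) = (σ ^ (i + 1)) a := by
    intro i
    rw [pow_succ']
    rfl
  simp only [h1]
  rcases Nat.eq_zero_or_pos r with rfl | hr
  · simp
  · obtain ⟨k, rfl⟩ : ∃ k, r = k + 1 := ⟨r - 1, by omega⟩
    rw [Finset.prod_range_succ, Finset.prod_range_succ']
    rw [h]
    simp

theorem apply_pow (σ : Ω ≃+* Ω) (v : AbsoluteValue Ω ℝ) (hv : ∀ x, v (σ x) = v x) (i : ℕ) (x : Ω) :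
    v ((σ ^ i) x) = v x := by
  induction i with
  | zero => simp
  | succ k ih =>
    rw [pow_succ']
    change v (σ ((σ ^ k) x)) = v x
    rw [hv, ih]

theorem v_orbProd (σ : Ω ≃+* Ω) (v : AbsoluteValue Ω ℝ) (hv : ∀ x, v (σ x) = v x) (a : Ω) (r : ℕ) :
    v (orbProd σ a r) = v a ^ r := by
  unfold orbProd
  rw [map_prod]
  simp only [apply_pow σ v hv]
  simp

/-- Elements fixed by `σ` that are near `1` for `v` and near `0` for `w`. -/
theorem exists_approx (σ : Ω ≃+* Ω) (horb : ∀ x : Ω, ∃ r : ℕ, 0 < r ∧ (σ ^ r) x = x)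
    (v w : AbsoluteValue Ω ℝ) (hv : v.IsNontrivial) (hw : w.IsNontrivial) (hne : ¬ v.IsEquiv w)
    (hσv : ∀ x, v (σ x) = v x) (hσw : ∀ x, w (σ x) = w x) (ε : ℝ) (hε : 0 < ε) :
    ∃ e : Ω, σ e = e ∧ v (1 - e) < ε ∧ w e < ε := by
  obtain ⟨a₀, h1, h2⟩ := AbsoluteValue.exists_one_lt_lt_one_of_not_isEquiv hv hw hne
  obtain ⟨r, hr, hra⟩ := horb a₀
  set a := orbProd σ a₀ r with ha
  have hfix : σ a = a := orbProd_fixed σ a₀ r hra
  have hva : 1 < v a := by
    rw [ha, v_orbProd σ v hσv]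
    exact one_lt_pow₀ h1 hr.ne'
  have hwa : w a < 1 := by
    rw [ha, v_orbProd σ w hσw]
    exact pow_lt_one₀ (w.nonneg _) h2 hr.ne'
  obtain ⟨n₁, hn₁⟩ := pow_unbounded_of_one_lt (1 / ε + 1) hva
  obtain ⟨n₂, hn₂⟩ := exists_pow_lt_of_lt_one (show (0 : ℝ) < min (ε / 2) (1 / 2) by positivity) hwa
  set n := max n₁ n₂ with hn
  have hv1 : 1 / ε + 1 < v a ^ n := hn₁.trans_le (pow_le_pow_right₀ hva.le (le_max_left _ _))
  have hw1 : w a ^ n < min (ε / 2) (1 / 2) :=
    (pow_le_pow_of_le_one (w.nonneg _) hwa.le (le_max_right _ _)).trans_lt hn₂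
  have hv2 : 1 / ε < v (1 + a ^ n) := by
    have h3 : v (a ^ n) ≤ v (1 + a ^ n) + v (1 : Ω) := by
      have := v.add_le (1 + a ^ n) (-1)
      have h4 : (1 + a ^ n) + (-1) = a ^ n := by ring
      rw [h4, v.map_neg] at this
      exact this
    rw [map_pow, map_one] at h3
    linarith
  have hne0 : 1 + a ^ n ≠ 0 := by
    intro h
    rw [h, map_zero] at hv2
    have : 0 < 1 / ε := by positivity
    linarith
  have hw2 : 1 / 2 ≤ w (1 + a ^ n) := by
    have h3 : w (1 : Ω) ≤ w (1 + a ^ n) + w (a ^ n) := by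
      have := w.add_le (1 + a ^ n) (-a ^ n)
      have h4 : (1 + a ^ n) + (-a ^ n) = 1 := by ring
      rw [h4, w.map_neg] at this
      exact this
    rw [map_pow, map_one] at h3
    have h5 : w a ^ n < 1 / 2 := hw1.trans_le (min_le_right _ _)
    linarith
  refine ⟨a ^ n / (1 + a ^ n), ?_, ?_, ?_⟩
  · rw [map_div₀, map_add, map_pow, map_one, hfix]
  · have h6 : 1 - a ^ n / (1 + a ^ n) = 1 / (1 + a ^ n) := by
      field_simp
      ring
    rw [h6, map_div₀, map_one]
    have h60 : 0 < v (1 + a ^ n) := (by positivity : (0:ℝ) < 1 / ε).trans hv2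
    rw [div_lt_iff₀ h60]
    rw [div_lt_iff₀ hε] at hv2
    linarith
  · rw [map_div₀, map_pow]
    have h7 : 0 < w (1 + a ^ n) := by linarith
    rw [div_lt_iff₀ h7]
    have h8 : w a ^ n < ε / 2 := hw1.trans_le (min_le_left _ _)
    nlinarith

end prelim

theorem exists_factor_lt {d : ℕ} (x : Fin d → ℝ) (ε : ℝ) (hε : 0 ≤ ε)
    (h : ∏ i, x i < ε ^ d) : ∃ i, x i < ε := by
  by_contra hcon
  push Not at hcon
  have h2 : ε ^ d ≤ ∏ i, x i := by
    calc ε ^ d = ∏ i : Fin d, ε := by simp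
      _ ≤ ∏ i, x i := Finset.prod_le_prod (fun _ _ => hε) (fun i _ => hcon i)
  linarith

/-- A monic polynomial of degree `d` over an algebraically closed field, evaluated. -/
theorem exists_roots {Ω : Type*} [Field Ω] [IsAlgClosed Ω] (f : Polynomial Ω) (hf : f.Monic) (d : ℕ)
    (hd : f.natDegree = d) : ∃ β : Fin d → Ω, ∀ x, f.eval x = ∏ i, (x - β i) := by
  have h1 : f.Splits := IsAlgClosed.splits f
  have h2 : Multiset.card f.roots = d := by
    rw [← hd]
    exact (splits_iff_card_roots.1 h1)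
  have h3 : f = (f.roots.map (fun a => X - C a)).prod := by
    have := h1.eq_prod_roots
    rw [hf.leadingCoeff, C_1, one_mul] at this
    exact this
  obtain ⟨l, hl⟩ : ∃ l : List Ω, (l : Multiset Ω) = f.roots := ⟨f.roots.toList, f.roots.coe_toList⟩
  have h4 : l.length = d := by
    rw [← h2, ← hl]
    rfl
  subst h4
  refine ⟨fun i => l.get i, fun x => ?_⟩
  have h5 : f.eval x = (f.roots.map (fun a => x - a)).prod := by
    conv_lhs => rw [h3]
    rw [eval_multiset_prod, Multiset.map_map]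
    simp
  rw [h5, ← hl, Multiset.map_coe, Multiset.prod_coe]
  rw [← List.prod_ofFn]
  congr 1
  apply List.ext_get
  · simp
  · intro n h1 h2
    simp

theorem schmidt {Ω : Type*} [Field Ω] [IsAlgClosed Ω] [CharZero Ω] (σ : Ω ≃+* Ω)
    (horb : ∀ x : Ω, ∃ r : ℕ, 0 < r ∧ (σ ^ r) x = x)
    (v w : AbsoluteValue Ω ℝ) (hv : v.IsNontrivial) (hw : w.IsNontrivial) (hne : ¬ v.IsEquiv w)
    (hσv : ∀ x, v (σ x) = v x) (hσw : ∀ x, w (σ x) = w x) (θ : Ω) : σ θ = θ := by
  by_contra hθ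
  obtain ⟨d, hd, hdθ⟩ := horb θ
  -- the separation of the integers for `w`
  obtain ⟨δ, hδ, hδ'⟩ : ∃ δ : ℝ, 0 < δ ∧ ∀ i j : Fin d, i ≠ j → δ ≤ w ((i : ℕ) - (j : ℕ) : Ω) := by
    by_cases hex : ∃ ij : Fin d × Fin d, ij.1 ≠ ij.2
    · obtain ⟨m, hm1, hm2⟩ := Finset.exists_min_image
        (Finset.univ.filter fun ij : Fin d × Fin d => ij.1 ≠ ij.2)
        (fun ij => w (((ij.1 : ℕ) : Ω) - ((ij.2 : ℕ) : Ω)))
        (by obtain ⟨ij, h⟩ := hex; exact ⟨ij, by simpa using h⟩)
      refine ⟨_, ?_, fun i j hij => hm2 (i, j) (by simpa using hij)⟩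
      rw [Finset.mem_filter] at hm1
      apply w.pos
      rw [sub_ne_zero]
      intro h
      exact hm1.2 (Fin.ext (by exact_mod_cast h))
    · refine ⟨1, one_pos, fun i j hij => (hex ⟨(i, j), hij⟩).elim⟩
  set g : Ω → Ω := fun x => ∏ i ∈ Finset.range d, (x - (σ ^ i) θ) with hg
  set h : Ω → Ω := fun x => ∏ i : Fin d, (x - ((i : ℕ) : Ω)) with hh
  -- bounds
  obtain ⟨B, hB0, hB⟩ : ∃ B : ℝ, 0 < B ∧ ∀ i : Fin d, w (g ((i : ℕ) : Ω)) ≤ B := by
    refine ⟨1 + ∑ i : Fin d, w (g ((i : ℕ) : Ω)), ?_, fun i => ?_⟩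
    · have : 0 ≤ ∑ i : Fin d, w (g ((i : ℕ) : Ω)) := Finset.sum_nonneg fun i _ => w.nonneg _
      linarith
    · have : w (g ((i : ℕ) : Ω)) ≤ ∑ i : Fin d, w (g ((i : ℕ) : Ω)) :=
        Finset.single_le_sum (f := fun i : Fin d => w (g ((i : ℕ) : Ω)))
          (fun i _ => w.nonneg _) (Finset.mem_univ i)
      linarith
  set η : ℝ := v (θ - σ θ) / 2 with hη
  have hη0 : 0 < η := by
    have : 0 < v (θ - σ θ) := v.pos (sub_ne_zero.2 (Ne.symm hθ))
    positivity
  set C₀ : ℝ := 1 + v (h θ) with hC₀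
  have hC₀' : 0 < C₀ := by
    have := v.nonneg (h θ)
    linarith
  obtain ⟨e, he, hev, hew⟩ := exists_approx σ horb v w hv hw hne hσv hσw
    (min (η ^ d / C₀) ((δ / 2) ^ d / B)) (by positivity)
  -- the polynomial
  set G : Polynomial Ω := ∏ i ∈ Finset.range d, (X - C ((σ ^ i) θ)) with hG
  set H : Polynomial Ω := ∏ i : Fin d, (X - C (((i : ℕ) : Ω))) with hH
  have hGm : G.Monic := monic_prod_of_monic _ _ fun i _ => monic_X_sub_C _
  have hHm : H.Monic := monic_prod_of_monic _ _ fun i _ => monic_X_sub_C _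
  have hGd : G.natDegree = d := by
    rw [hG, natDegree_prod_of_monic _ _ fun i _ => monic_X_sub_C _]
    simp
  have hHd : H.natDegree = d := by
    rw [hH, natDegree_prod_of_monic _ _ fun i _ => monic_X_sub_C _]
    simp only [natDegree_X_sub_C]
    simp
  set f : Polynomial Ω := C e * G + C (1 - e) * H with hf
  have hfd' : f.natDegree ≤ d := by
    refine (natDegree_add_le _ _).trans (max_le ?_ ?_)
    · exact (natDegree_C_mul_le _ _).trans hGd.le
    · exact (natDegree_C_mul_le _ _).trans hHd.le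
  have hfc : f.coeff d = 1 := by
    rw [hf, coeff_add, coeff_C_mul, coeff_C_mul]
    have h1 : G.coeff d = 1 := by rw [← hGd]; exact hGm
    have h2 : H.coeff d = 1 := by rw [← hHd]; exact hHm
    rw [h1, h2]
    ring
  have hfm : f.Monic := monic_of_natDegree_le_of_coeff_eq_one d hfd' hfc
  have hfd : f.natDegree = d := by
    apply le_antisymm hfd'
    apply le_natDegree_of_ne_zero
    rw [hfc]
    exact one_ne_zero
  have hfe : ∀ x, f.eval x = e * g x + (1 - e) * h x := by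
    intro x
    rw [hf, eval_add, eval_mul, eval_mul, eval_C, eval_C, hG, hH, eval_prod, eval_prod]
    simp [hg, hh]
  obtain ⟨β, hβ⟩ := exists_roots f hfm d hfd
  -- `f` commutes with `σ`
  have hgσ : ∀ x, g (σ x) = σ (g x) := by
    intro x
    have h1 : ∀ i, σ ((σ ^ i) θ) = (σ ^ (i + 1)) θ := by
      intro i
      rw [pow_succ']
      rfl
    simp only [hg, map_prod, map_sub, h1]
    obtain ⟨k, rfl⟩ : ∃ k, d = k + 1 := ⟨d - 1, by omega⟩
    rw [Finset.prod_range_succ', Finset.prod_range_succ]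
    rw [hdθ]
    simp
  have hhσ : ∀ x, h (σ x) = σ (h x) := by
    intro x
    simp [hh, map_prod]
  have hfσ : ∀ x, f.eval (σ x) = σ (f.eval x) := by
    intro x
    rw [hfe, hfe, hgσ, hhσ, map_add, map_mul, map_mul, map_sub, he, map_one]
  have hroot : ∀ j, ∃ k, σ (β j) = β k := by
    intro j
    have h1 : f.eval (β j) = 0 := by
      rw [hβ]
      exact Finset.prod_eq_zero (Finset.mem_univ j) (sub_self _)
    have h2 : f.eval (σ (β j)) = 0 := by rw [hfσ, h1, map_zero]
    rw [hβ, Finset.prod_eq_zero_iff] at h2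
    obtain ⟨k, _, hk⟩ := h2
    exact ⟨k, sub_eq_zero.1 hk⟩
  -- near `w`
  have hw1 : ∀ i : Fin d, ∃ j : Fin d, w (((i : ℕ) : Ω) - β j) < δ / 2 := by
    intro i
    have h1 : f.eval ((i : ℕ) : Ω) = e * g ((i : ℕ) : Ω) := by
      rw [hfe]
      have : h ((i : ℕ) : Ω) = 0 := Finset.prod_eq_zero (Finset.mem_univ i) (sub_self _)
      rw [this]
      ring
    have h2 : ∏ j, w (((i : ℕ) : Ω) - β j) < (δ / 2) ^ d := by
      rw [← map_prod, ← hβ, h1, map_mul]
      have h3 : w e < (δ / 2) ^ d / B := hew.trans_le (min_le_right _ _)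
      calc w e * w (g ((i : ℕ) : Ω)) ≤ w e * B :=
            mul_le_mul_of_nonneg_left (hB i) (w.nonneg _)
        _ < (δ / 2) ^ d / B * B := mul_lt_mul_of_pos_right h3 hB0
        _ = (δ / 2) ^ d := by field_simp
    exact exists_factor_lt _ _ (by positivity) h2
  choose J hJ using hw1
  have hJinj : Function.Injective J := by
    intro i i' hii
    by_contra hne'
    have h1 := hδ' i i' hne'
    have h2 : w (((i : ℕ) : Ω) - ((i' : ℕ) : Ω)) ≤
        w (((i : ℕ) : Ω) - β (J i)) + w (((i' : ℕ) : Ω) - β (J i')) := by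
      have h3 : (((i : ℕ) : Ω) - ((i' : ℕ) : Ω)) =
          (((i : ℕ) : Ω) - β (J i)) + (-(((i' : ℕ) : Ω) - β (J i'))) := by
        rw [hii]
        ring
      rw [h3]
      refine (w.add_le _ _).trans ?_
      rw [w.map_neg]
    have h4 := hJ i
    have h5 := hJ i'
    linarith
  have hJbij : Function.Bijective J := Finite.injective_iff_bijective.1 hJinj
  have hfixβ : ∀ j, σ (β j) = β j := by
    intro j
    obtain ⟨i, rfl⟩ := hJbij.2 j
    obtain ⟨k, hk⟩ := hroot (J i)
    obtain ⟨i', rfl⟩ := hJbij.2 k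
    have h1 : i = i' := by
      by_contra hne'
      have h1 := hδ' i i' hne'
      have h2 : w (((i : ℕ) : Ω) - ((i' : ℕ) : Ω)) ≤
          w (((i : ℕ) : Ω) - β (J i)) + w (((i' : ℕ) : Ω) - β (J i')) := by
        have h3 : (((i : ℕ) : Ω) - ((i' : ℕ) : Ω)) =
            σ (((i : ℕ) : Ω) - β (J i)) + (-(((i' : ℕ) : Ω) - β (J i'))) := by
          rw [map_sub, hk, map_natCast]
          ring
        rw [h3]
        refine (w.add_le _ _).trans ?_
        rw [w.map_neg, hσw]
      have h4 := hJ i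
      have h5 := hJ i'
      linarith
    rw [hk, h1]
  -- near `v`
  have hv1 : ∃ j : Fin d, v (θ - β j) < η := by
    have h1 : f.eval θ = (1 - e) * h θ := by
      rw [hfe]
      have : g θ = 0 := by
        apply Finset.prod_eq_zero (Finset.mem_range.2 hd)
        simp
      rw [this]
      ring
    have h2 : ∏ j, v (θ - β j) < η ^ d := by
      rw [← map_prod, ← hβ, h1, map_mul]
      have h3 : v (1 - e) < η ^ d / C₀ := hev.trans_le (min_le_left _ _)
      calc v (1 - e) * v (h θ) ≤ v (1 - e) * C₀ :=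
            mul_le_mul_of_nonneg_left (by linarith) (v.nonneg _)
        _ < η ^ d / C₀ * C₀ := mul_lt_mul_of_pos_right h3 hC₀'
        _ = η ^ d := by field_simp
    exact exists_factor_lt _ _ hη0.le h2
  obtain ⟨j, hj⟩ := hv1
  have h1 : v (θ - σ θ) ≤ v (θ - β j) + v (θ - β j) := by
    have h3 : θ - σ θ = (θ - β j) + (-(σ (θ - β j))) := by
      rw [map_sub, hfixβ]
      ring
    rw [h3]
    refine (v.add_le _ _).trans ?_
    rw [v.map_neg, hσv]
  have h2 : v (θ - σ θ) = 2 * η := by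
    rw [hη]
    ring
  linarith

end Pool.Agent.MP_0d9be2.H63
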