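import Pool.Agent.Lib.MP_0d9be2_nt.H63.Pro

/-!
# Towers of number fields inside the algebraic closure
-/

set_option autoImplicit false

open Filter

namespace Pool.Agent.MP_0d9be2.H63

open Pool.Agent.MP_0d9be2.H36

theorem IsPHyper.of_ker_le {p : ℕ} (hp : p.Prime) {D X Y : Type*} [Group D] [Group X] [Group Y]
    (f : D →* X) (g : D →* Y) (hg : Function.Surjective g) (hker : f.ker ≤ g.ker)
    (hX : IsPHyper p f.range) : IsPHyper p Y := by
  have hf : Function.Surjective f.rangeRestrict := f.rangeRestrict_surjective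
  have hker' : f.rangeRestrict.ker ≤ g.ker := by
    rw [MonoidHom.ker_rangeRestrict]
    exact hker
  let q : f.range →* Y := f.rangeRestrict.liftOfSurjective hf ⟨g, hker'⟩
  have hq : ∀ d, q (f.rangeRestrict d) = g d := by
    intro d
    exact MonoidHom.liftOfRightInverse_comp_apply _ _ _ ⟨g, hker'⟩ d
  refine IsPHyper.of_surjective hp q (fun y => ?_) hX
  obtain ⟨d, rfl⟩ := hg y
  exact ⟨f.rangeRestrict d, hq d⟩

section

variable (K : Type) [Field K] [NumberField K]

theorem countable_algClosure : Countable (AlgebraicClosure K) := by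
  have h1 : Algebra.IsAlgebraic ℚ (AlgebraicClosure K) :=
    Algebra.IsAlgebraic.trans ℚ K (AlgebraicClosure K)
  have h2 := Algebraic.countable ℚ (AlgebraicClosure K)
  have h3 : {x : AlgebraicClosure K | IsAlgebraic ℚ x} = Set.univ := by
    ext x
    simp only [Set.mem_setOf_eq, Set.mem_univ, iff_true]
    exact h1.isAlgebraic x
  rw [h3] at h2
  exact Set.countable_univ_iff.1 h2

/-- An increasing sequence of finite Galois extensions which exhausts the algebraic closure. -/
theorem exists_exhaustion (M₀ : IntermediateField K (AlgebraicClosure K))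
    [FiniteDimensional K M₀] [IsGalois K M₀] :
    ∃ M : ℕ → IntermediateField K (AlgebraicClosure K), M 0 = M₀ ∧ Monotone M ∧
      (∀ n, FiniteDimensional K (M n)) ∧ (∀ n, IsGalois K (M n)) ∧ ∀ x, ∃ n, x ∈ M n := by
  have hc := countable_algClosure K
  obtain ⟨f, hf⟩ := exists_surjective_nat (AlgebraicClosure K)
  choose L hL using fun x : AlgebraicClosure K => exists_galois (k := K) x
  let S := {M : IntermediateField K (AlgebraicClosure K) // FiniteDimensional K M ∧ IsGalois K M}
  let M' : ℕ → S := fun n => Nat.rec (motive := fun _ => S) ⟨M₀, inferInstance, inferInstance⟩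
    (fun n A => ⟨A.1 ⊔ L (f n), by
      have h1 := A.2.1
      have h2 := A.2.2
      have h3 := (hL (f n)).2.1
      have h4 := (hL (f n)).2.2
      have h5 : Normal K A.1 := inferInstance
      have h6 : Normal K (L (f n)) := inferInstance
      refine ⟨inferInstance, ?_⟩
      exact { }⟩) n
  have hsucc : ∀ n, (M' (n + 1)).1 = (M' n).1 ⊔ L (f n) := fun n => rfl
  refine ⟨fun n => (M' n).1, rfl, ?_, fun n => (M' n).2.1, fun n => (M' n).2.2, ?_⟩
  · apply monotone_nat_of_le_succ
    intro n
    rw [hsucc]
    exact le_sup_left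
  · intro x
    obtain ⟨n, rfl⟩ := hf x
    refine ⟨n + 1, ?_⟩
    change f n ∈ (M' n).1 ⊔ L (f n)
    exact (le_sup_right : L (f n) ≤ (M' n).1 ⊔ L (f n)) (hL (f n)).1

variable {K}

/-- Iteration of a step. -/
theorem exists_tower (P : IntermediateField K (AlgebraicClosure K) → Prop)
    (R : ℕ → IntermediateField K (AlgebraicClosure K) →
      IntermediateField K (AlgebraicClosure K) → Prop)
    (step : ∀ n F, P F → ∃ F', F ≤ F' ∧ P F' ∧ R n F F')
    (F₀ : IntermediateField K (AlgebraicClosure K)) (hF₀ : P F₀) :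
    ∃ F : ℕ → IntermediateField K (AlgebraicClosure K), F 0 = F₀ ∧ Monotone F ∧ (∀ n, P (F n)) ∧
      ∀ n, R n (F n) (F (n + 1)) := by
  choose! g hg1 hg2 hg3 using step
  let F' : ℕ → {F // P F} := fun n => Nat.rec (motive := fun _ => {F // P F}) ⟨F₀, hF₀⟩
    (fun n A => ⟨g n A.1, hg2 n A.1 A.2⟩) n
  refine ⟨fun n => (F' n).1, rfl, ?_, fun n => (F' n).2, fun n => hg3 n _ (F' n).2⟩
  apply monotone_nat_of_le_succ
  intro n
  exact hg1 n _ (F' n).2

/-- The union of the tower has a pro-`p`-hyperelementary absolute Galois group. -/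
theorem hyper_inf {p : ℕ} (hp : p.Prime) (F M : ℕ → IntermediateField K (AlgebraicClosure K))
    (hmono : Monotone M) (hMex : ∀ x, ∃ n, x ∈ M n) [hG : ∀ n, IsGalois K (M n)]
    (hR : ∀ n, IsPHyper p ((F (n + 1)).fixingSubgroup.map
      (AlgEquiv.restrictNormalHom (M n) : Gal(AlgebraicClosure K/K) →* Gal(M n/K))))
    (Ki : IntermediateField K (AlgebraicClosure K)) (hKi : ∀ n, F n ≤ Ki)
    (L : IntermediateField Ki (AlgebraicClosure K))
    [hL : FiniteDimensional Ki L] [hLG : IsGalois Ki L] :
    IsPHyper p (L ≃ₐ[Ki] L) := by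
  obtain ⟨S, hS⟩ : ∃ S : Finset (AlgebraicClosure K), IntermediateField.adjoin Ki ↑S = L := by
    obtain ⟨s, hs⟩ := (inferInstance : Module.Finite Ki L).fg_top
    classical
    refine ⟨s.image (fun x : L => (x : AlgebraicClosure K)), le_antisymm ?_ ?_⟩
    · rw [IntermediateField.adjoin_le_iff]
      intro x hx
      simp only [Finset.coe_image, Set.mem_image] at hx
      obtain ⟨y, _, rfl⟩ := hx
      exact y.2
    · intro x hx
      have h1 : (⟨x, hx⟩ : L) ∈ Submodule.span Ki (s : Set L) := by
        rw [hs]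
        trivial
      have h2 : ∀ y ∈ Submodule.span Ki (s : Set L), (y : AlgebraicClosure K) ∈
          IntermediateField.adjoin Ki
            (↑(s.image (fun x : L => (x : AlgebraicClosure K))) : Set (AlgebraicClosure K)) := by
        intro y hy
        induction hy using Submodule.span_induction with
        | mem z hz =>
          apply IntermediateField.subset_adjoin
          simp only [Finset.coe_image, Set.mem_image]
          exact ⟨z, hz, rfl⟩
        | zero => exact zero_mem _
        | add a b _ _ ha hb => exact add_mem ha hb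
        | smul a b _ hb =>
          have h3 : ((a • b : L) : AlgebraicClosure K) = algebraMap Ki (AlgebraicClosure K) a * b := by
            rw [Algebra.smul_def]
            rfl
          rw [h3]
          exact mul_mem (IntermediateField.algebraMap_mem _ a) hb
      exact h2 _ h1
  obtain ⟨n, hn⟩ : ∃ n, ∀ x ∈ S, x ∈ M n := by
    choose N hN using hMex
    refine ⟨S.sup N, fun x hx => ?_⟩
    exact hmono (Finset.le_sup hx) (hN x)
  have hclos : IsAlgClosure Ki (AlgebraicClosure K) := by
    refine ⟨inferInstance, ?_⟩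
    exact Algebra.IsAlgebraic.tower_top (K := K) Ki
  have hNormal : Normal Ki (AlgebraicClosure K) := IsAlgClosure.normal Ki (AlgebraicClosure K)
  let f : Gal(AlgebraicClosure K/Ki) →* Gal(M n/K) :=
    (AlgEquiv.restrictNormalHom (M n)).comp (AlgEquiv.restrictScalarsHom K)
  have hfapply : ∀ (σ : Gal(AlgebraicClosure K/Ki)) (x : M n), ((f σ x : M n) : AlgebraicClosure K)
      = σ x := by
    intro σ x
    exact AlgEquiv.restrictNormalHom_apply (M n) (AlgEquiv.restrictScalarsHom K σ) x
  refine IsPHyper.of_ker_le hp f (AlgEquiv.restrictNormalHom L : Gal(AlgebraicClosure K/Ki) →* _)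
    (AlgEquiv.restrictNormalHom_surjective (AlgebraicClosure K)) ?_ ?_
  · intro σ hσ
    rw [MonoidHom.mem_ker] at hσ ⊢
    have h1 : L ≤ IntermediateField.fixedField (Subgroup.zpowers σ) := by
      rw [← hS, IntermediateField.adjoin_le_iff]
      intro x hx
      have h2 : σ x = x := by
        have h3 := hfapply σ ⟨x, hn x hx⟩
        rw [hσ] at h3
        exact h3.symm
      rw [SetLike.mem_coe, IntermediateField.mem_fixedField_iff]
      intro τ hτ
      rw [Subgroup.mem_zpowers_iff] at hτ
      obtain ⟨m, rfl⟩ := hτ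
      have h4 : σ ∈ MulAction.stabilizer Gal(AlgebraicClosure K/Ki) x := h2
      exact Subgroup.zpow_mem _ h4 m
    ext x
    rw [AlgEquiv.restrictNormalHom_apply]
    have h5 := h1 x.2
    rw [IntermediateField.mem_fixedField_iff] at h5
    exact h5 σ (Subgroup.mem_zpowers σ)
  · refine IsPHyper.of_le hp ?_ (hR n)
    rintro _ ⟨σ, rfl⟩
    refine ⟨AlgEquiv.restrictScalarsHom K σ, ?_, rfl⟩
    rw [SetLike.mem_coe, IntermediateField.mem_fixingSubgroup_iff]
    intro x hx
    have hx' : x ∈ Ki := hKi (n + 1) hx
    exact σ.commutes ⟨x, hx'⟩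

end

end Pool.Agent.MP_0d9be2.H63
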